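import Mathlib
import Pool.Agent.Q103.FWS.One

/-!
# The height of the values of a rational function, uniformly in the field
-/

set_option autoImplicit false

namespace Pool.Agent.Q271.TP

open NumberField Height Polynomial
open Pool.Agent.H951R3.V (logHeight₁_inv')
open Pool.Agent.Q103.FWS (poly_ht)

theorem natDegree_div_add_le {K : Type*} [Field K] (p : K[X]) {q : K[X]} (hq : q ≠ 0) :
    (p / q).natDegree + q.natDegree ≤ max p.natDegree q.natDegree := by
  by_cases h : q.degree ≤ p.degree
  · have h1 := degree_add_div hq h
    by_cases hp : p = 0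
    · subst hp
      simp
    have h2 : p / q ≠ 0 := by
      intro h3
      rw [h3, degree_zero, WithBot.add_bot] at h1
      exact hp (degree_eq_bot.1 h1.symm)
    rw [degree_eq_natDegree hq, degree_eq_natDegree h2, degree_eq_natDegree hp] at h1
    have h4 : q.natDegree + (p / q).natDegree = p.natDegree := by exact_mod_cast h1
    omega
  · have h5 : p / q = 0 := (Polynomial.div_eq_zero_iff hq).2 (not_le.1 h)
    rw [h5]
    simp

/-- the height of the values is at most the degree times the height of the argument, up to a
constant: by the Euclidean algorithm -/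
theorem rat_ht_max {K : Type} [Field K] [NumberField K] : ∀ (N : ℕ) (F G : K[X]), G ≠ 0 →
    G.natDegree ≤ N → ∃ B : ℝ, 0 ≤ B ∧
    ∀ (L : Type) [Field L] [NumberField L] [Algebra K L] (t : L),
      logHeight₁ ((F.map (algebraMap K L)).eval t / (G.map (algebraMap K L)).eval t) ≤
        ((max F.natDegree G.natDegree : ℕ) : ℝ) * logHeight₁ t + Module.finrank ℚ L * B := by
  intro N
  induction N with
  | zero =>
    intro F G hG hN
    have hc : G = C (G.coeff 0) := eq_C_of_natDegree_le_zero hN
    have hg : G.coeff 0 ≠ 0 := by
      intro h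
      rw [h, C_0] at hc
      exact hG hc
    obtain ⟨B, hB, h⟩ := poly_ht (F * C (G.coeff 0)⁻¹).natDegree (F * C (G.coeff 0)⁻¹) le_rfl
    refine ⟨B, hB, ?_⟩
    intro L _ _ _ t
    have e : (F.map (algebraMap K L)).eval t / (G.map (algebraMap K L)).eval t =
        ((F * C (G.coeff 0)⁻¹).map (algebraMap K L)).eval t := by
      conv_lhs => rw [hc]
      rw [map_C, eval_C, Polynomial.map_mul, eval_mul, map_C, eval_C, map_inv₀, div_eq_mul_inv]
    rw [e]
    refine (h L t).trans ?_
    have h1 : ((F * C (G.coeff 0)⁻¹).natDegree : ℝ) ≤ ((max F.natDegree G.natDegree : ℕ) : ℝ) := by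
      have : (F * C (G.coeff 0)⁻¹).natDegree ≤ F.natDegree := natDegree_mul_C_le _ _
      exact_mod_cast this.trans (le_max_left _ _)
    have h2 := mul_le_mul_of_nonneg_right h1 (zero_le_logHeight₁ t)
    linarith
  | succ N ih =>
    intro F G hG hN
    by_cases hN' : G.natDegree ≤ N
    · exact ih F G hG hN'
    have hGd : 0 < G.natDegree := by omega
    obtain ⟨B₁, hB₁, h₁⟩ := poly_ht (F / G).natDegree (F / G) le_rfl
    have hQd : (F / G).natDegree + G.natDegree ≤ max F.natDegree G.natDegree :=
      natDegree_div_add_le F hG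
    have hl2 : 0 ≤ Real.log 2 := Real.log_nonneg (by norm_num)
    have hid : ∀ (L : Type) [Field L] [NumberField L] [Algebra K L] (t : L),
        (F.map (algebraMap K L)).eval t = (G.map (algebraMap K L)).eval t *
          ((F / G).map (algebraMap K L)).eval t + ((F % G).map (algebraMap K L)).eval t := by
      intro L _ _ _ t
      rw [← eval_mul, ← Polynomial.map_mul, ← eval_add, ← Polynomial.map_add,
        EuclideanDomain.div_add_mod]
    obtain ⟨B₂, hB₂, h₂⟩ : ∃ B₂ : ℝ, 0 ≤ B₂ ∧
        ∀ (L : Type) [Field L] [NumberField L] [Algebra K L] (t : L),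
        logHeight₁ (((F % G).map (algebraMap K L)).eval t / (G.map (algebraMap K L)).eval t) ≤
          (G.natDegree : ℝ) * logHeight₁ t + Module.finrank ℚ L * B₂ := by
      by_cases hR : F % G = 0
      · refine ⟨0, le_rfl, ?_⟩
        intro L _ _ _ t
        rw [hR, Polynomial.map_zero, eval_zero, zero_div, logHeight₁_zero, mul_zero, add_zero]
        exact mul_nonneg (Nat.cast_nonneg _) (zero_le_logHeight₁ t)
      · have hRd : (F % G).natDegree < G.natDegree := natDegree_mod_lt F hGd.ne'
        obtain ⟨B, hB, h⟩ := ih G (F % G) hR (by omega)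
        refine ⟨B, hB, ?_⟩
        intro L _ _ _ t
        have h3 := h L t
        rw [max_eq_left hRd.le] at h3
        rw [← inv_div, logHeight₁_inv'] 
        exact h3
    refine ⟨B₁ + B₂ + Real.log 2, by positivity, ?_⟩
    intro L _ _ _ t
    have hht := zero_le_logHeight₁ t
    by_cases hGt : (G.map (algebraMap K L)).eval t = 0
    · rw [hGt, div_zero, logHeight₁_zero]
      positivity
    have e : (F.map (algebraMap K L)).eval t / (G.map (algebraMap K L)).eval t =
        ((F / G).map (algebraMap K L)).eval t +
          ((F % G).map (algebraMap K L)).eval t / (G.map (algebraMap K L)).eval t := by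
      rw [hid L t]
      field_simp
    rw [e]
    have h3 := logHeight₁_add_le (((F / G).map (algebraMap K L)).eval t)
      (((F % G).map (algebraMap K L)).eval t / (G.map (algebraMap K L)).eval t)
    rw [totalWeight_eq_finrank] at h3
    have h4 := h₁ L t
    have h5 := h₂ L t
    have h6 : ((F / G).natDegree : ℝ) + G.natDegree ≤ ((max F.natDegree G.natDegree : ℕ) : ℝ) := by
      exact_mod_cast hQd
    have h7 := mul_le_mul_of_nonneg_right h6 hht
    linarith

end Pool.Agent.Q271.TP
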