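import Mathlib
import Pool.Agent.Q103.FWS.Fam

/-!
# One-parameter families: the parameters for which `j` has few poles, uniformly in the field

The proofs follow `Pool.Agent.Q103.FWS.One` and `Pool.Agent.Q103.FWS.Fam`.
-/

set_option autoImplicit false

namespace Pool.Agent.Q271.TP

open NumberField IsDedekindDomain Height Polynomial
open Pool.Agent.H691R3 (fv Nv log_Nv_pos)
open Pool.Agent.W223.AK (Nv_one_lt)
open Pool.Agent.Q237.LT (fa wa mem_wa)
open Pool.Agent.Y673.Loc Pool.Agent.Y673.Cnt Pool.Agent.Y673.DK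
open Pool.Agent.H951R3.V (ell logHeight₁_inv')
open Pool.Agent.Q103.FWS (neg_mem_wa rat_neg fa_ext_le poly_ht rat_ht)

section shared
variable (K M₀ : Type) [Field K] [NumberField K] [Field M₀] [NumberField M₀] [Algebra K M₀]

theorem sharedF (n : ℕ) (c : 𝓞 M₀) (hc : c ≠ 0) (B₀ : ℝ) (hB : 0 ≤ B₀)
    {ε : ℝ} (hε : 0 < ε) : ∃ C : ℝ, 0 < C ∧
    ∀ (L : Type) [Field L] [NumberField L], Module.finrank ℚ L ≤ n →
      ∀ (M : Type) [Field M] [NumberField M] [Algebra L M] [Algebra M₀ M],
        Module.finrank L M ≤ Module.finrank K M₀ → ∀ X : ℝ, 1 ≤ X → ∀ W₀ : ℝ,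
        ∀ (E : Finset L) (u : L → M) (j : L → L),
        Set.InjOn u E → (∀ t ∈ E, mulHeight₁ t ≤ X ∧ u t ≠ 0 ∧
          logHeight₁ (u t) ≤ 2 * logHeight₁ (algebraMap L M t) + Module.finrank ℚ M * B₀ ∧
          fa (j t) ≤ W₀ ∧
          ∀ w : HeightOneSpectrum (𝓞 M),
            (adv M w).v (algebraMap M₀ M (c : M₀)) = 0 → (adv M w).v (u t) ≠ 0 →
              (adv M w).v (algebraMap L M (j t)) < 0) →
        (E.card : ℝ) ≤ C * X ^ ε * Real.exp (Module.finrank K M₀ * W₀) := by
  classical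
  set d : ℕ := Module.finrank K M₀ with hd
  have hd0 : 0 < d := by
    have : FiniteDimensional K M₀ := Module.Finite.of_restrictScalars_finite ℚ K M₀
    exact Module.finrank_pos
  have hd0' : (0 : ℝ) < d := by exact_mod_cast hd0
  set δ : ℝ := ε / (2 * d) with hδ
  have hδ0 : 0 < δ := by positivity
  obtain ⟨C, hC, h1⟩ := ucnt (n * d) hδ0
  set W : ℝ := 2 * ((n * d : ℕ) : ℝ) * logHeight₁ (c : M₀) with hW
  have hhc : 0 ≤ logHeight₁ (c : M₀) := zero_le_logHeight₁ _
  set B₂ : ℝ := ((n * d : ℕ) : ℝ) * B₀ with hB₂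
  have hB₂0 : 0 ≤ B₂ := by positivity
  refine ⟨C * Real.exp (δ * B₂ + W), by positivity, ?_⟩
  intro L _ _ hLn M _ _ _ _ hLM X hX W₀ E u j hinj hE
  have hlX : 0 ≤ Real.log X := Real.log_nonneg hX
  have hfr : Module.finrank ℚ M ≤ n * d := by
    rw [← Module.finrank_mul_finrank ℚ L M]
    exact Nat.mul_le_mul hLn hLM
  have hfr' : (Module.finrank ℚ M : ℝ) ≤ ((n * d : ℕ) : ℝ) := by exact_mod_cast hfr
  have hcM : algebraMap M₀ M (c : M₀) ≠ 0 :=
    (map_ne_zero_iff _ (algebraMap M₀ M).injective).2 (by exact_mod_cast hc)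
  set F : Finset (HeightOneSpectrum (𝓞 M)) := (adv_finite hcM).toFinset with hF
  have hFW : ∑ v ∈ F, ell v ≤ W := by
    refine (supp_weight hcM F (fun v hv => by simpa [hF] using hv)).trans ?_
    rw [ht_ext, hW]
    have h3 : (Module.finrank M₀ M : ℝ) ≤ ((n * d : ℕ) : ℝ) := by
      refine le_trans ?_ hfr'
      rw [← Module.finrank_mul_finrank ℚ M₀ M]
      push_cast
      have h4 : (1 : ℝ) ≤ Module.finrank ℚ M₀ := by
        exact_mod_cast Module.finrank_pos (R := ℚ) (M := M₀)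
      have h5 : (0 : ℝ) ≤ Module.finrank M₀ M := Nat.cast_nonneg _
      nlinarith
    have := mul_le_mul_of_nonneg_right h3 hhc
    linarith
  have h8 : (Module.finrank L M : ℝ) ≤ d := by exact_mod_cast hLM
  have hln : ∀ t ∈ E, logHeight₁ t ≤ Real.log X := by
    intro t ht
    rw [logHeight₁_eq_log_mulHeight₁]
    exact Real.log_le_log (mulHeight₁_pos t) (hE t ht).1
  have h2 := h1 M hfr (2 * d * Real.log X + B₂)
    (W + d * W₀) (by positivity) (E.image u) (by
    intro y hy
    obtain ⟨t, ht, rfl⟩ := Finset.mem_image.1 hy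
    obtain ⟨h3, h4, h5, h6, h6'⟩ := hE t ht
    refine ⟨h4, ?_, F ∪ wa (algebraMap L M (j t)), ?_, ?_⟩
    · refine h5.trans ?_
      rw [ht_ext]
      have h7 := hln t ht
      have h9 : (Module.finrank L M : ℝ) * logHeight₁ t ≤ d * Real.log X :=
        mul_le_mul h8 h7 (zero_le_logHeight₁ t) hd0'.le
      have h10 := mul_le_mul_of_nonneg_right hfr' hB
      linarith
    · have h7 : ∑ v ∈ F ∪ wa (algebraMap L M (j t)), ell v ≤
          ∑ v ∈ F, ell v + ∑ v ∈ wa (algebraMap L M (j t)), ell v := by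
        rw [← Finset.sum_union_inter]
        have : 0 ≤ ∑ v ∈ F ∩ wa (algebraMap L M (j t)), ell v :=
          Finset.sum_nonneg fun v _ => (log_Nv_pos v).le
        linarith
      have h9 : ∑ v ∈ wa (algebraMap L M (j t)), ell v ≤ d * W₀ := by
        have e : ∑ v ∈ wa (algebraMap L M (j t)), ell v = fa (algebraMap L M (j t)) := rfl
        rw [e]
        refine (fa_ext_le (j t)).trans ?_
        exact mul_le_mul h8 h6 (Pool.Agent.Q237.LT.fa_nonneg _) hd0'.le
      linarith
    · intro v hv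
      rw [Finset.mem_union, not_or] at hv
      by_contra hne
      refine hv.2 (neg_mem_wa v (h6' v ?_ hne))
      by_contra hne'
      exact hv.1 (by rw [hF, Set.Finite.mem_toFinset]; exact hne'))
  rw [Finset.card_image_of_injOn hinj] at h2
  refine h2.trans (le_of_eq ?_)
  have hX0 : (0 : ℝ) < X := by linarith
  have e3 : ∀ a b c : ℝ, C * Real.exp a * Real.exp b * Real.exp c = C * Real.exp (a + b + c) := by
    intro a b c
    rw [Real.exp_add, Real.exp_add]
    ring
  rw [Real.rpow_def_of_pos hX0, e3]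
  congr 2
  have h4 : δ * (2 * d * Real.log X) = ε * Real.log X := by
    rw [hδ]
    field_simp
  linear_combination h4

end shared

section fams
variable (K : Type) [Field K] [NumberField K]

/-- the values of the parameter for which the rational function `F / G` has few poles -/
def Few (F G : K[X]) (L : Type) [Field L] [NumberField L] [Algebra K L] (X W : ℝ) (t : L) : Prop :=
  mulHeight₁ t ≤ X ∧ (G.map (algebraMap K L)).eval t ≠ 0 ∧
    fa ((F.map (algebraMap K L)).eval t / (G.map (algebraMap K L)).eval t) ≤ W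

/-- one finite pole and a pole at infinity -/
theorem few_inf (F G : K[X]) (hcop : IsCoprime F G) (hG : 0 < G.natDegree)
    (hFG : G.natDegree < F.natDegree) : ∃ d : ℕ, 0 < d ∧ ∀ (n : ℕ) (ε : ℝ), 0 < ε →
    ∃ C : ℝ, 0 < C ∧
    ∀ (L : Type) [Field L] [NumberField L] [Algebra K L], Module.finrank ℚ L ≤ n →
      ∀ X : ℝ, 1 ≤ X → ∀ (W : ℝ) (E : Finset L), (∀ t ∈ E, Few K F G L X W t) →
      (E.card : ℝ) ≤ C * X ^ ε * Real.exp (d * W) := by
  classical
  have hG0 : G ≠ 0 := by rintro rfl; simp at hG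
  obtain ⟨x, hx⟩ := IsAlgClosed.exists_aeval_eq_zero (AlgebraicClosure K) G
    (fun h => by rw [← natDegree_eq_zero_iff_degree_le_zero.2 h.le] at hG; exact lt_irrefl _ hG)
  obtain ⟨M₀, _, _, _, φ, π, -, hπx, -⟩ := exists_field2 K x x
  have hπ : (G.map (algebraMap K M₀)).eval π = 0 := root_of φ G π (by rw [hπx]; exact hx)
  have hinjK := (algebraMap K M₀).injective
  have hGM : G.map (algebraMap K M₀) ≠ 0 := (Polynomial.map_ne_zero_iff hinjK).2 hG0
  obtain ⟨m, s, hm, hs⟩ := pole_data (F.map (algebraMap K M₀)) (G.map (algebraMap K M₀))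
    (hcop.map (Polynomial.mapRingHom (algebraMap K M₀))) hGM π hπ
  obtain ⟨m₂, s₂, hm₂, hs₂⟩ := inf_data (F.map (algebraMap K M₀)) (G.map (algebraMap K M₀)) hGM
    (by rw [natDegree_map, natDegree_map]; exact hFG)
  obtain ⟨c, hc, hcs⟩ := exists_c (s ∪ (s₂ ∪ {π}))
  have hfd : FiniteDimensional K M₀ := Module.Finite.of_restrictScalars_finite ℚ K M₀
  refine ⟨Module.finrank K M₀, Module.finrank_pos, fun n ε hε => ?_⟩
  obtain ⟨C, hC, h⟩ := sharedF K M₀ n c hc (Real.log 2 + logHeight₁ π)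
    (add_nonneg (Real.log_nonneg (by norm_num)) (zero_le_logHeight₁ π)) hε
  refine ⟨C, hC, ?_⟩
  intro L _ _ _ hL X hX W E hE
  obtain ⟨M, _, _, _, _, hcomp, hfin⟩ := exists_comp K L M₀
  refine h L hL M hfin X hX W E (fun t => algebraMap L M t - algebraMap M₀ M π)
    (fun t => (F.map (algebraMap K L)).eval t / (G.map (algebraMap K L)).eval t) ?_ ?_
  · intro t _ t' _ htt
    exact (algebraMap L M).injective (sub_left_injective htt)
  intro t ht
  obtain ⟨h2, h3, h4⟩ := hE t ht
  have hne : algebraMap L M t - algebraMap M₀ M π ≠ 0 := by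
    intro h0
    have h5 : algebraMap L M t = algebraMap M₀ M π := sub_eq_zero.1 h0
    have h6 := eval_comp hcomp G t
    rw [h5, eval_map, eval₂_at_apply, hπ, map_zero] at h6
    exact h3 ((map_eq_zero_iff _ (algebraMap L M).injective).1 h6.symm)
  refine ⟨h2, hne, ?_, h4, fun w hw hv => ?_⟩
  · refine (ht_sub t π).trans ?_
    have := zero_le_logHeight₁ (algebraMap L M t)
    linarith
  have hgd := hcs M (adv M w) (fun r => adv_int M₀ M w r) hw
  have hgs : Gd s (adv M w) := hgd.mono Finset.subset_union_left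
  have hgs₂ : Gd s₂ (adv M w) :=
    hgd.mono (Finset.subset_union_left.trans Finset.subset_union_right)
  have hπw : (adv M w).G 0 (algebraMap M₀ M π) := hgd.G (by simp)
  have e0 : algebraMap L M t - algebraMap M₀ M π + algebraMap M₀ M π = algebraMap L M t :=
    sub_add_cancel _ _
  rcases lt_trichotomy ((adv M w).v (algebraMap L M t - algebraMap M₀ M π)) 0 with h6 | h6 | h6
  · -- near infinity
    have h7 : (adv M w).E ((adv M w).v (algebraMap L M t - algebraMap M₀ M π))
        (algebraMap L M t) := by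
      have := (ZV.E_of_ne (w := adv M w) hne).addG hπw h6
      rwa [e0] at this
    have h8 := hs₂ M (adv M w) hgs₂ _ h7.1 (by rw [h7.2]; exact h6)
    rw [eval_comp hcomp, eval_comp hcomp, ← map_div₀, h7.2] at h8
    rw [h8]
    have : (0 : ℤ) < m₂ := by exact_mod_cast hm₂
    exact mul_neg_of_pos_of_neg this h6
  · exact absurd h6 hv
  · have h7 := hs M (adv M w) hgs _ hne (Or.inr (by omega))
    rw [eval_comp hcomp, eval_comp hcomp, ← map_div₀] at h7
    exact rat_neg w hm h6 h7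

/-- two finite poles -/
theorem few_two (F G : K[X]) (hcop : IsCoprime F G) (hG0 : G ≠ 0)
    (x y : AlgebraicClosure K) (hxy : x ≠ y) (hx : aeval x G = 0) (hy : aeval y G = 0) :
    ∃ d : ℕ, 0 < d ∧ ∀ (n : ℕ) (ε : ℝ), 0 < ε →
    ∃ C : ℝ, 0 < C ∧
    ∀ (L : Type) [Field L] [NumberField L] [Algebra K L], Module.finrank ℚ L ≤ n →
      ∀ X : ℝ, 1 ≤ X → ∀ (W : ℝ) (E : Finset L), (∀ t ∈ E, Few K F G L X W t) →
      (E.card : ℝ) ≤ C * X ^ ε * Real.exp (d * W) := by
  classical
  obtain ⟨M₀, _, _, _, φ, π, ρ, hπx, hρy⟩ := exists_field2 K x y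
  have hπ : (G.map (algebraMap K M₀)).eval π = 0 := root_of φ G π (by rw [hπx]; exact hx)
  have hρ : (G.map (algebraMap K M₀)).eval ρ = 0 := root_of φ G ρ (by rw [hρy]; exact hy)
  have hπρ : π ≠ ρ := by
    rintro rfl
    exact hxy (hπx.symm.trans hρy)
  have hinjK := (algebraMap K M₀).injective
  have hGM : G.map (algebraMap K M₀) ≠ 0 := (Polynomial.map_ne_zero_iff hinjK).2 hG0
  have hcop' : IsCoprime (F.map (algebraMap K M₀)) (G.map (algebraMap K M₀)) :=
    hcop.map (Polynomial.mapRingHom (algebraMap K M₀))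
  obtain ⟨m, s, hm, hs⟩ := pole_data _ _ hcop' hGM π hπ
  obtain ⟨m₂, s₂, hm₂, hs₂⟩ := pole_data _ _ hcop' hGM ρ hρ
  obtain ⟨c, hc, hcs⟩ := exists_c (s ∪ (s₂ ∪ {π, ρ, π - ρ}))
  set B₁ : ℝ := Real.log 2 + logHeight₁ π with hB₁
  set B₂ : ℝ := Real.log 2 + logHeight₁ ρ with hB₂
  have hl2 : 0 ≤ Real.log 2 := Real.log_nonneg (by norm_num)
  have hfd : FiniteDimensional K M₀ := Module.Finite.of_restrictScalars_finite ℚ K M₀
  refine ⟨Module.finrank K M₀, Module.finrank_pos, fun n ε hε => ?_⟩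
  obtain ⟨C, hC, h⟩ := sharedF K M₀ n c hc (B₁ + B₂)
    (add_nonneg (add_nonneg hl2 (zero_le_logHeight₁ π)) (add_nonneg hl2 (zero_le_logHeight₁ ρ))) hε
  refine ⟨C, hC, ?_⟩
  intro L _ _ _ hL X hX W E hE
  obtain ⟨M, _, _, _, _, hcomp, hfin⟩ := exists_comp K L M₀
  have hinjM := (algebraMap M₀ M).injective
  have hnz : ∀ (t : L) (κ : M₀), (G.map (algebraMap K L)).eval t ≠ 0 →
      (G.map (algebraMap K M₀)).eval κ = 0 → algebraMap L M t - algebraMap M₀ M κ ≠ 0 := by
    intro t κ h3 hκ h0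
    have h5 : algebraMap L M t = algebraMap M₀ M κ := sub_eq_zero.1 h0
    have h6 := eval_comp hcomp G t
    rw [h5, eval_map, eval₂_at_apply, hκ, map_zero] at h6
    exact h3 ((map_eq_zero_iff _ (algebraMap L M).injective).1 h6.symm)
  refine h L hL M hfin X hX W E (fun t => (algebraMap L M t - algebraMap M₀ M π) /
    (algebraMap L M t - algebraMap M₀ M ρ))
    (fun t => (F.map (algebraMap K L)).eval t / (G.map (algebraMap K L)).eval t) ?_ ?_
  · intro t ht t' ht' htt
    have h1 := hnz t ρ (hE t (Finset.mem_coe.1 ht)).2.1 hρ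
    have h2 := hnz t' ρ (hE t' (Finset.mem_coe.1 ht')).2.1 hρ
    simp only at htt
    rw [div_eq_div_iff h1 h2] at htt
    have h3 : (algebraMap L M t - algebraMap L M t') * (algebraMap M₀ M π - algebraMap M₀ M ρ)
        = 0 := by linear_combination htt
    rcases mul_eq_zero.1 h3 with h4 | h4
    · exact (algebraMap L M).injective (sub_eq_zero.1 h4)
    · exact absurd (hinjM (sub_eq_zero.1 h4)) hπρ
  intro t ht
  obtain ⟨h2, h3, h4⟩ := hE t ht
  have hne := hnz t π h3 hπ
  have hne₂ := hnz t ρ h3 hρ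
  refine ⟨h2, div_ne_zero hne hne₂, ?_, h4, fun w hw hv => ?_⟩
  · have i1 := ht_sub (M := M) t π
    have i2 := ht_sub (M := M) t ρ
    rw [← hB₁] at i1
    rw [← hB₂] at i2
    rw [div_eq_mul_inv]
    refine (logHeight₁_mul_le _ _).trans ?_
    rw [logHeight₁_inv']
    have e : (Module.finrank ℚ M : ℝ) * (B₁ + B₂) =
      Module.finrank ℚ M * B₁ + Module.finrank ℚ M * B₂ := by ring
    rw [e]
    linarith
  have hgd := hcs M (adv M w) (fun r => adv_int M₀ M w r) hw
  have hgs : Gd s (adv M w) := hgd.mono Finset.subset_union_left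
  have hgs₂ : Gd s₂ (adv M w) :=
    hgd.mono (Finset.subset_union_left.trans Finset.subset_union_right)
  have hπw : (adv M w).G 0 (algebraMap M₀ M π) := hgd.G (by simp)
  have hρw : (adv M w).G 0 (algebraMap M₀ M ρ) := hgd.G (by simp)
  have hdw : (adv M w).E 0 (algebraMap M₀ M π - algebraMap M₀ M ρ) := by
    have := hgd.E (x := π - ρ) (by simp) (sub_ne_zero.2 hπρ)
    rwa [map_sub] at this
  set a := algebraMap L M t - algebraMap M₀ M π with ha
  set b := algebraMap L M t - algebraMap M₀ M ρ with hb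
  have hab : b = a + (algebraMap M₀ M π - algebraMap M₀ M ρ) := by rw [ha, hb]; ring
  have hEa := ZV.E_of_ne (w := adv M w) hne
  have hEb := ZV.E_of_ne (w := adv M w) hne₂
  -- the argument near a pole
  have near : ∀ (κ : M₀) (m' : ℕ) (s' : Finset M₀), 0 < m' → Gd s' (adv M w) →
      (∀ (M : Type) [Field M] [Algebra M₀ M] (w : ZV M), Gd s' w → ∀ t : M,
      t - algebraMap M₀ M κ ≠ 0 → w.G 1 (t - algebraMap M₀ M κ) →
      w.v (((F.map (algebraMap K M₀)).map (algebraMap M₀ M)).eval t /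
        ((G.map (algebraMap K M₀)).map (algebraMap M₀ M)).eval t) =
        -(m' * w.v (t - algebraMap M₀ M κ))) →
      algebraMap L M t - algebraMap M₀ M κ ≠ 0 →
      0 < (adv M w).v (algebraMap L M t - algebraMap M₀ M κ) →
      (adv M w).v (algebraMap L M ((F.map (algebraMap K L)).eval t /
        (G.map (algebraMap K L)).eval t)) < 0 := by
    intro κ m' s' hm' hgs' hs' hne' hpos
    have h7 := hs' M (adv M w) hgs' _ hne' (Or.inr (by omega))
    rw [eval_comp hcomp, eval_comp hcomp, ← map_div₀] at h7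
    exact rat_neg w hm' hpos h7
  rw [(hEa.div hEb).2] at hv
  rcases lt_trichotomy ((adv M w).v a) 0 with h6 | h6 | h6
  · exfalso
    have h7 := hEa.addG hdw.G h6
    rw [← hab] at h7
    rw [h7.2, sub_self] at hv
    exact hv rfl
  · have h8 : (adv M w).G 0 b := by
      rw [hab]
      exact (hEa.mono h6.ge).add hdw.G
    rcases (h8.resolve_left hne₂).lt_or_eq with h9 | h9
    · exact near ρ m₂ s₂ hm₂ hgs₂ hs₂ hne₂ h9
    · exfalso
      rw [← h9, h6] at hv
      exact hv (by ring)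
  · exact near π m s hm hgs hs hne h6

end fams

end Pool.Agent.Q271.TP
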