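import Mathlib
import Pool.Agent.Q271.TP.Shared

/-!
# One-parameter families: the parameters for which `j` has few poles, without a condition on the
# number of the poles of the rational function
-/

set_option autoImplicit false

namespace Pool.Agent.Q271.TP

open NumberField IsDedekindDomain Height Polynomial
open Pool.Agent.H691R3 (fv Nv log_Nv_pos)
open Pool.Agent.Q237.LT (fa wa mem_wa fa_le_ht fa_nonneg)
open Pool.Agent.Y673.Loc Pool.Agent.Y673.Cnt Pool.Agent.Y673.DK
open Pool.Agent.H951R3.V (ell logHeight₁_inv')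
open Pool.Agent.Q103.FWS (neg_mem_wa poly_ht rat_ht)

theorem ht_le_log {L : Type} [Field L] [NumberField L] {t : L} {X : ℝ} (h : mulHeight₁ t ≤ X) :
    logHeight₁ t ≤ Real.log X := by
  rw [logHeight₁_eq_log_mulHeight₁]
  exact Real.log_le_log (mulHeight₁_pos t) h

theorem fa_le_log {L : Type} [Field L] [NumberField L] (t : L) : fa t ≤ logHeight₁ t := by
  rw [Pool.Agent.Q237.LS.ht_log]
  exact fa_le_ht t

theorem sum_wa {L : Type} [Field L] [NumberField L] (t : L) : ∑ v ∈ wa t, ell v = fa t := rfl

theorem union_le {L : Type} [Field L] [NumberField L] [DecidableEq (HeightOneSpectrum (𝓞 L))]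
    (s t : Finset (HeightOneSpectrum (𝓞 L))) :
    ∑ v ∈ s ∪ t, ell v ≤ ∑ v ∈ s, ell v + ∑ v ∈ t, ell v := by
  rw [← Finset.sum_union_inter]
  have : 0 ≤ ∑ v ∈ s ∩ t, ell v := Finset.sum_nonneg fun v _ => (log_Nv_pos v).le
  linarith

/-- fibres of a polynomial -/
theorem fibre_poly {L : Type} [Field L] [DecidableEq L] (P Q : L[X]) (y : L) (E : Finset L)
    (h : P - C y * Q ≠ 0) {D : ℕ} (hP : P.natDegree ≤ D) (hQ : Q.natDegree ≤ D)
    (hE : ∀ t ∈ E, P.eval t = y * Q.eval t) : E.card ≤ D := by
  have h1 : E ⊆ (P - C y * Q).roots.toFinset := by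
    intro t ht
    rw [Multiset.mem_toFinset, mem_roots h, IsRoot.def, eval_sub, eval_mul, eval_C, hE t ht,
      sub_self]
  refine (Finset.card_le_card h1).trans ((Multiset.toFinset_card_le _).trans
    ((card_roots' _).trans ?_))
  refine (natDegree_sub_le _ _).trans (max_le hP ?_)
  exact (natDegree_C_mul_le _ _).trans hQ

variable (K : Type) [Field K] [NumberField K]

/-- the element of `K` which controls the bad primes has small weight -/
theorem c_weight (c : 𝓞 K) (hc : c ≠ 0) (n : ℕ) (L : Type) [Field L] [NumberField L] [Algebra K L]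
    (hL : Module.finrank ℚ L ≤ n) : ∃ S : Finset (HeightOneSpectrum (𝓞 L)),
      ∑ v ∈ S, ell v ≤ 2 * n * logHeight₁ (c : K) ∧
      ∀ v, v ∉ S → (adv L v).v (algebraMap K L (c : K)) = 0 := by
  have hcL : algebraMap K L (c : K) ≠ 0 :=
    (map_ne_zero_iff _ (algebraMap K L).injective).2 (by exact_mod_cast hc)
  refine ⟨(adv_finite hcL).toFinset, ?_, ?_⟩
  · refine (supp_weight hcL _ (fun v hv => by simpa using hv)).trans ?_
    rw [ht_ext]
    have h3 : (Module.finrank K L : ℝ) ≤ n := by
      have h4 : Module.finrank K L ≤ n := by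
        refine le_trans ?_ hL
        rw [← Module.finrank_mul_finrank ℚ K L]
        exact Nat.le_mul_of_pos_left _ Module.finrank_pos
      exact_mod_cast h4
    have := mul_le_mul_of_nonneg_right h3 (zero_le_logHeight₁ (c : K))
    linarith
  · intro v hv
    by_contra hne
    exact hv (by rw [Set.Finite.mem_toFinset]; exact hne)

/-- counting, from the data at the primes -/
theorem count_one (n D : ℕ) (B Wc : ℝ) (hB : 0 ≤ B) {ε : ℝ} (hε : 0 < ε) :
    ∃ C : ℝ, 0 < C ∧ ∀ (L : Type) [Field L] [NumberField L], Module.finrank ℚ L ≤ n →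
      ∀ X : ℝ, 1 ≤ X → ∀ (W : ℝ) (E : Finset L), (∀ y ∈ E, y ≠ 0 ∧
        logHeight₁ y ≤ D * Real.log X + n * B ∧
        ∃ F : Finset (HeightOneSpectrum (𝓞 L)), ∑ v ∈ F, ell v ≤ Wc + W + Real.log X ∧
          ∀ v, v ∉ F → (adv L v).v y = 0) →
      (E.card : ℝ) ≤ C * X ^ (1 + ε) * Real.exp W := by
  set δ : ℝ := ε / (D + 1) with hδ
  have hδ0 : 0 < δ := by positivity
  obtain ⟨C, hC, h⟩ := ucnt n hδ0
  refine ⟨C * Real.exp (δ * (n * B) + Wc), by positivity, ?_⟩
  intro L _ _ hL X hX W E hE
  have hlX : 0 ≤ Real.log X := Real.log_nonneg hX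
  have h1 := h L hL (D * Real.log X + n * B) (Wc + W + Real.log X) (by positivity) E hE
  refine h1.trans ?_
  have hX0 : (0 : ℝ) < X := by linarith
  rw [mul_assoc C, mul_assoc, Real.rpow_def_of_pos hX0, ← Real.exp_add, ← Real.exp_add]
  refine mul_le_mul_of_nonneg_left (Real.exp_le_exp.2 ?_) hC.le
  have h2 : δ * D ≤ ε := by
    rw [hδ, div_mul_eq_mul_div, div_le_iff₀ (by positivity)]
    nlinarith
  have h3 := mul_le_mul_of_nonneg_right h2 hlX
  nlinarith

/-- at a good prime, where the denominator `G(t)` is not a unit and `t` is integral, `j` has a pole -/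
theorem num_data (F G : K[X]) (hcop : IsCoprime F G) (hG0 : G ≠ 0) :
    ∃ s : Finset K, ∀ (M : Type) [Field M] [Algebra K M] (w : ZV M), Gd s w → ∀ t : M,
      (G.map (algebraMap K M)).eval t ≠ 0 → w.G 0 t →
      w.v ((G.map (algebraMap K M)).eval t) ≠ 0 →
      w.v ((F.map (algebraMap K M)).eval t / (G.map (algebraMap K M)).eval t) < 0 := by
  classical
  obtain ⟨A, B, hAB⟩ := hcop
  refine ⟨cf F ∪ cf G ∪ (cf A ∪ cf B), ?_⟩
  intro M _ _ w hs t hne ht hv
  have hFc : w.G 0 ((F.map (algebraMap K M)).eval t) :=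
    poly_int _ (hs.coeff (fun x hx => by simp [hx])) ht
  have hGc : w.G 0 ((G.map (algebraMap K M)).eval t) :=
    poly_int _ (hs.coeff (fun x hx => by simp [hx])) ht
  have hAc : w.G 0 ((A.map (algebraMap K M)).eval t) :=
    poly_int _ (hs.coeff (fun x hx => by simp [hx])) ht
  have hBc : w.G 0 ((B.map (algebraMap K M)).eval t) :=
    poly_int _ (hs.coeff (fun x hx => by simp [hx])) ht
  have hG1 : 1 ≤ w.v ((G.map (algebraMap K M)).eval t) := by
    have := hGc.resolve_left hne
    omega
  have hid : (A.map (algebraMap K M)).eval t * (F.map (algebraMap K M)).eval t +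
      (B.map (algebraMap K M)).eval t * (G.map (algebraMap K M)).eval t = 1 := by
    rw [← eval_mul, ← eval_mul, ← eval_add, ← Polynomial.map_mul, ← Polynomial.map_mul,
      ← Polynomial.map_add, hAB, Polynomial.map_one, eval_one]
  have hFE : w.E 0 ((F.map (algebraMap K M)).eval t) := by
    by_contra hcon
    have hF1 : w.G 1 ((F.map (algebraMap K M)).eval t) := by
      rcases hFc with h | h
      · exact Or.inl h
      · right
        by_contra h'
        apply hcon
        refine ⟨?_, by omega⟩
        intro h0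
        apply hcon
        exfalso
        -- `F(t) = 0` : then `G(t)` is a unit
        rw [h0, mul_zero, zero_add] at hid
        have h5 : w.G 1 ((B.map (algebraMap K M)).eval t * (G.map (algebraMap K M)).eval t) :=
          (hBc.mul (Or.inr hG1 : w.G 1 _)).mono (by norm_num)
        rw [hid] at h5
        have h6 := (ZV.E_one (w := w)).le_of_G h5
        omega
    have h3 : w.G 1 ((A.map (algebraMap K M)).eval t * (F.map (algebraMap K M)).eval t) :=
      (hAc.mul hF1).mono (by norm_num)
    have h4 : w.G 1 ((B.map (algebraMap K M)).eval t * (G.map (algebraMap K M)).eval t) :=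
      (hBc.mul (Or.inr hG1 : w.G 1 _)).mono (by norm_num)
    have h5 := h3.add h4
    rw [hid] at h5
    have h6 := (ZV.E_one (w := w)).le_of_G h5
    omega
  rw [(hFE.div (ZV.E_of_ne (w := w) hne)).2]
  omega

/-- **One pole is enough for a weaker bound.** -/
theorem few_one (F G : K[X]) (hcop : IsCoprime F G) (hG0 : G ≠ 0)
    (hD : 0 < F.natDegree ∨ 0 < G.natDegree) (n : ℕ) (ε : ℝ) (hε : 0 < ε) :
    ∃ C : ℝ, 0 < C ∧
    ∀ (L : Type) [Field L] [NumberField L] [Algebra K L], Module.finrank ℚ L ≤ n →
      ∀ X : ℝ, 1 ≤ X → ∀ (W : ℝ) (E : Finset L), (∀ t ∈ E, Few K F G L X W t) →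
      (E.card : ℝ) ≤ C * X ^ (1 + ε) * Real.exp W := by
  classical
  rcases Nat.eq_zero_or_pos G.natDegree with hG | hG
  · -- the denominator is constant: a pole at infinity
    have hF : 0 < F.natDegree := hD.resolve_right (by omega)
    obtain ⟨m, s, hm, hs⟩ := inf_data F G hG0 (by omega)
    obtain ⟨c, hc, hcs⟩ := exists_c s
    obtain ⟨C, hC, h⟩ := count_one n 1 0 (2 * n * logHeight₁ (c : K)) le_rfl hε
    refine ⟨C + 1, by positivity, ?_⟩
    intro L _ _ _ hL X hX W E hE
    rcases E.eq_empty_or_nonempty with rfl | ⟨t₀, ht₀⟩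
    · have : (0 : ℝ) ≤ (C + 1) * X ^ (1 + ε) * Real.exp W := by positivity
      simpa using this
    have hW : 0 ≤ W := (fa_nonneg _).trans (hE t₀ ht₀).2.2
    have hlX : 0 ≤ Real.log X := Real.log_nonneg hX
    obtain ⟨S, hS1, hS2⟩ := c_weight K c hc n L hL
    have h1 := h L hL X hX W (E.erase 0) (by
      intro t ht
      rw [Finset.mem_erase] at ht
      obtain ⟨ht0, htE⟩ := ht
      obtain ⟨h2, h3, h4⟩ := hE t htE
      refine ⟨ht0, ?_, S ∪ (wa ((F.map (algebraMap K L)).eval t / (G.map (algebraMap K L)).eval t) ∪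
        wa t⁻¹), ?_, ?_⟩
      · have := ht_le_log h2
        push_cast
        linarith
      · refine (union_le _ _).trans ?_
        have h5 := union_le
          (wa ((F.map (algebraMap K L)).eval t / (G.map (algebraMap K L)).eval t)) (wa t⁻¹)
        rw [sum_wa, sum_wa] at h5
        have h6 := fa_le_log t⁻¹
        rw [logHeight₁_inv'] at h6
        have h7 := ht_le_log h2
        linarith
      · intro v hv
        rw [Finset.mem_union, Finset.mem_union, not_or, not_or] at hv
        have hgd := hcs L (adv L v) (fun r => adv_int K L v r) (hS2 v hv.1)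
        rcases lt_trichotomy ((adv L v).v t) 0 with h6 | h6 | h6
        · exfalso
          refine hv.2.1 (neg_mem_wa v ?_)
          rw [hs L (adv L v) hgd t ht0 h6]
          have : (0 : ℤ) < m := by exact_mod_cast hm
          exact mul_neg_of_pos_of_neg this h6
        · exact h6
        · exfalso
          refine hv.2.2 (neg_mem_wa v ?_)
          rw [adv_inv ht0]
          omega)
    have h2 : (E.card : ℝ) ≤ (E.erase 0).card + 1 := by
      have h7 := Finset.pred_card_le_card_erase (s := E) (a := (0 : L))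
      have h8 : E.card ≤ (E.erase 0).card + 1 := by omega
      exact_mod_cast h8
    have h3 : 1 ≤ X ^ (1 + ε) * Real.exp W := by
      have h4 : 1 ≤ X ^ (1 + ε) := Real.one_le_rpow hX (by positivity)
      have h5 : 1 ≤ Real.exp W := Real.one_le_exp hW
      nlinarith
    have e : (C + 1) * X ^ (1 + ε) * Real.exp W =
      C * X ^ (1 + ε) * Real.exp W + X ^ (1 + ε) * Real.exp W := by ring
    rw [e]
    linarith
  · -- zeros of the denominator
    obtain ⟨s, hs⟩ := num_data K F G hcop hG0
    obtain ⟨c, hc, hcs⟩ := exists_c s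
    obtain ⟨B, hB, hBh⟩ := poly_ht G.natDegree G le_rfl
    obtain ⟨C, hC, h⟩ := count_one n G.natDegree B (2 * n * logHeight₁ (c : K)) hB hε
    refine ⟨G.natDegree * C, by positivity, ?_⟩
    intro L _ _ _ hL X hX W E hE
    have hlX : 0 ≤ Real.log X := Real.log_nonneg hX
    obtain ⟨S, hS1, hS2⟩ := c_weight K c hc n L hL
    have hL' : (Module.finrank ℚ L : ℝ) ≤ n := by exact_mod_cast hL
    set u : L → L := fun t => (G.map (algebraMap K L)).eval t with hu
    have h1 := h L hL X hX W (E.image u) (by
      intro y hy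
      obtain ⟨t, ht, rfl⟩ := Finset.mem_image.1 hy
      obtain ⟨h2, h3, h4⟩ := hE t ht
      refine ⟨h3, ?_, S ∪ (wa ((F.map (algebraMap K L)).eval t / (G.map (algebraMap K L)).eval t) ∪
        wa t), ?_, ?_⟩
      · have h5 := hBh L t
        have h6 := ht_le_log h2
        have h7 : (G.natDegree : ℝ) * logHeight₁ t ≤ G.natDegree * Real.log X := by gcongr
        have h8 := mul_le_mul_of_nonneg_right hL' hB
        linarith
      · refine (union_le _ _).trans ?_
        have h5 := union_le
          (wa ((F.map (algebraMap K L)).eval t / (G.map (algebraMap K L)).eval t)) (wa t)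
        rw [sum_wa, sum_wa] at h5
        have h6 := fa_le_log t
        have h7 := ht_le_log h2
        linarith
      · intro v hv
        rw [Finset.mem_union, Finset.mem_union, not_or, not_or] at hv
        have hgd := hcs L (adv L v) (fun r => adv_int K L v r) (hS2 v hv.1)
        have ht0 : (adv L v).G 0 t := by
          by_cases h5 : t = 0
          · exact Or.inl h5
          · right
            by_contra h6
            exact hv.2.2 (neg_mem_wa v (not_le.1 h6))
        by_contra hne
        exact hv.2.1 (neg_mem_wa v (hs L (adv L v) hgd t h3 ht0 hne)))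
    have h2 : E.card ≤ G.natDegree * (E.image u).card := by
      refine Finset.card_le_mul_card_image E G.natDegree ?_
      intro y _
      refine fibre_poly (G.map (algebraMap K L)) 1 y _ ?_ (natDegree_map_le) (by simp) ?_
      · intro h0
        rw [mul_one, sub_eq_zero] at h0
        have h5 : (G.map (algebraMap K L)).natDegree = 0 := by rw [h0]; exact natDegree_C y
        rw [natDegree_map] at h5
        omega
      · intro t ht
        rw [Finset.mem_filter] at ht
        rw [eval_one, mul_one]
        exact ht.2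
    calc (E.card : ℝ) ≤ G.natDegree * (E.image u).card := by exact_mod_cast h2
      _ ≤ G.natDegree * (C * X ^ (1 + ε) * Real.exp W) := by gcongr
      _ = G.natDegree * C * X ^ (1 + ε) * Real.exp W := by ring

end Pool.Agent.Q271.TP
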