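import Mathlib
import Pool.Agent.Q271.TP.One
import Pool.Agent.Q271.TP.Ht

/-!
# One-parameter families: properties of `j` which hold if `j` has many poles
-/

set_option autoImplicit false

namespace Pool.Agent.Q271.TP

open NumberField IsDedekindDomain Height Polynomial
open Pool.Agent.H691R3 (fv Nv log_Nv_pos)
open Pool.Agent.Q237.LT (fa wa mem_wa fa_le_ht fa_nonneg)
open Pool.Agent.Y673.Loc Pool.Agent.Y673.Cnt Pool.Agent.Y673.DK
open Pool.Agent.H951R3.V (ell logHeight₁_inv')
open Pool.Agent.Q103.FWS (neg_mem_wa)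

/-- elements of bounded height, uniformly in the field -/
theorem low_card (n : ℕ) (Y : ℝ) : ∃ C : ℕ, ∀ (L : Type) [Field L] [NumberField L],
    Module.finrank ℚ L ≤ n → ∀ E : Finset L, (∀ x ∈ E, logHeight₁ x ≤ Y) → E.card ≤ C := by
  classical
  obtain ⟨C, hC, h⟩ := ucnt n (δ := 1) one_pos
  refine ⟨⌈C * Real.exp (1 * |Y| + 2 * |Y|)⌉₊ + 1, ?_⟩
  intro L _ _ hL E hE
  have h1 := h L hL |Y| (2 * |Y|) (abs_nonneg Y) (E.erase 0) (by
    intro u hu
    rw [Finset.mem_erase] at hu
    have h2 := (hE u hu.2).trans (le_abs_self Y)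
    refine ⟨hu.1, h2, (adv_finite hu.1).toFinset, ?_, ?_⟩
    · refine (supp_weight hu.1 _ (fun v hv => by simpa using hv)).trans ?_
      linarith
    · intro v hv
      by_contra hne
      exact hv (by rw [Set.Finite.mem_toFinset]; exact hne))
  have h2 := Finset.pred_card_le_card_erase (s := E) (a := (0 : L))
  have h3 : (E.erase 0).card ≤ ⌈C * Real.exp (1 * |Y| + 2 * |Y|)⌉₊ := by
    have := h1.trans (Nat.le_ceil _)
    exact_mod_cast this
  omega

variable (K : Type) [Field K] [NumberField K]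

theorem sub_ne (F G : K[X]) (hcop : IsCoprime F G)
    (hD : 0 < F.natDegree ∨ 0 < G.natDegree) (L : Type) [Field L] [Algebra K L] (y : L) :
    F.map (algebraMap K L) - C y * G.map (algebraMap K L) ≠ 0 := by
  intro h0
  rw [sub_eq_zero] at h0
  have hc : IsCoprime (F.map (algebraMap K L)) (G.map (algebraMap K L)) :=
    hcop.map (Polynomial.mapRingHom (algebraMap K L))
  have h1 : G.map (algebraMap K L) ∣ F.map (algebraMap K L) := by
    rw [h0]; exact dvd_mul_left _ _
  have h2 : IsUnit (G.map (algebraMap K L)) := hc.symm.isUnit_of_dvd' dvd_rfl h1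
  have h3 := natDegree_eq_zero_of_isUnit h2
  have h4 : (F.map (algebraMap K L)).natDegree = 0 := by
    rw [h0]
    exact Nat.le_zero.1 ((natDegree_C_mul_le _ _).trans h3.le)
  rw [natDegree_map] at h3 h4
  omega

/-- parameters with `j` of bounded height -/
theorem low_params (F G : K[X]) (hcop : IsCoprime F G)
    (hD : 0 < F.natDegree ∨ 0 < G.natDegree) (n : ℕ) (Y : ℝ) : ∃ C : ℕ,
    ∀ (L : Type) [Field L] [NumberField L] [Algebra K L], Module.finrank ℚ L ≤ n →
      ∀ E : Finset L, (∀ t ∈ E, (G.map (algebraMap K L)).eval t ≠ 0 ∧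
        logHeight₁ ((F.map (algebraMap K L)).eval t / (G.map (algebraMap K L)).eval t) ≤ Y) →
      E.card ≤ C := by
  classical
  obtain ⟨C, h⟩ := low_card n Y
  refine ⟨max F.natDegree G.natDegree * C, ?_⟩
  intro L _ _ _ hL E hE
  set j : L → L := fun t => (F.map (algebraMap K L)).eval t / (G.map (algebraMap K L)).eval t with hj
  have h1 := h L hL (E.image j) (by
    intro y hy
    obtain ⟨t, ht, rfl⟩ := Finset.mem_image.1 hy
    exact (hE t ht).2)
  have h2 : E.card ≤ max F.natDegree G.natDegree * (E.image j).card := by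
    refine Finset.card_le_mul_card_image E _ ?_
    intro y _
    refine fibre_poly (F.map (algebraMap K L)) (G.map (algebraMap K L)) y _
      (sub_ne K F G hcop hD L y) (natDegree_map_le.trans (le_max_left _ _))
      (natDegree_map_le.trans (le_max_right _ _)) ?_
    intro t ht
    rw [Finset.mem_filter] at ht
    have h3 := ht.2
    rw [hj] at h3
    simp only at h3
    rw [← h3, div_mul_cancel₀ _ (hE t ht.1).1]
  exact h2.trans (Nat.mul_le_mul_left _ h1)

/-- `F / G` has at least two different poles on the projective line over the algebraic closure. -/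
def TwoPoles (F G : K[X]) : Prop :=
  (∃ x y : AlgebraicClosure K, x ≠ y ∧ aeval x G = 0 ∧ aeval y G = 0) ∨
    (0 < G.natDegree ∧ G.natDegree < F.natDegree)

/-- the exceptional parameters for a property `P` of the invariant -/
def Bad (F G : K[X]) (L : Type) [Field L] [NumberField L] [Algebra K L] (P : L → Prop) (X : ℝ) :
    Set L :=
  {t | mulHeight₁ t ≤ X ∧ ¬ ((G.map (algebraMap K L)).eval t ≠ 0 ∧
    P ((F.map (algebraMap K L)).eval t / (G.map (algebraMap K L)).eval t))}

/-- **Main counting theorem.** -/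
theorem family_count (F G : K[X]) (hcop : IsCoprime F G) (hG0 : G ≠ 0)
    (hD : 0 < F.natDegree ∨ 0 < G.natDegree) : ∃ A : ℝ, 0 < A ∧ ∀ (n : ℕ) (ρ ε H₀ : ℝ),
    0 ≤ ρ → 0 < ε → ∃ C : ℝ, 0 < C ∧
    ∀ (L : Type) [Field L] [NumberField L] [Algebra K L], Module.finrank ℚ L ≤ n →
      ∀ P : L → Prop, (∀ j : L, j ≠ 0 → j ≠ 1728 → ρ * logHeight₁ j ≤ fa j →
        H₀ * Module.finrank ℚ L ≤ logHeight₁ j → P j) →
      ∀ X : ℝ, 1 ≤ X → (Bad K F G L P X).Finite ∧
        ((Bad K F G L P X).ncard : ℝ) ≤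
          C * X ^ (1 + (max F.natDegree G.natDegree : ℕ) * ρ + ε) ∧
        (TwoPoles K F G → ((Bad K F G L P X).ncard : ℝ) ≤ C * X ^ (A * ρ + ε)) := by
  classical
  -- the two counting functions
  obtain ⟨d, hd, htwo⟩ : ∃ d : ℕ, 0 < d ∧ (TwoPoles K F G → ∀ (n : ℕ) (ε : ℝ), 0 < ε →
    ∃ C : ℝ, 0 < C ∧
    ∀ (L : Type) [Field L] [NumberField L] [Algebra K L], Module.finrank ℚ L ≤ n →
      ∀ X : ℝ, 1 ≤ X → ∀ (W : ℝ) (E : Finset L), (∀ t ∈ E, Few K F G L X W t) →
      (E.card : ℝ) ≤ C * X ^ ε * Real.exp (d * W)) := by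
    by_cases hT : TwoPoles K F G
    · rcases hT with ⟨x, y, hxy, hx, hy⟩ | ⟨h1, h2⟩
      · obtain ⟨d, hd, h⟩ := few_two K F G hcop hG0 x y hxy hx hy
        exact ⟨d, hd, fun _ => h⟩
      · obtain ⟨d, hd, h⟩ := few_inf K F G hcop h1 h2
        exact ⟨d, hd, fun _ => h⟩
    · exact ⟨1, one_pos, fun h => absurd h hT⟩
  obtain ⟨B, hB, hrat⟩ := rat_ht_max G.natDegree F G hG0 le_rfl
  set D : ℕ := max F.natDegree G.natDegree with hDdef
  have hDpos : 0 < D := by omega
  have hDr : (0 : ℝ) < D := by exact_mod_cast hDpos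
  have hdr : (1 : ℝ) ≤ d := by exact_mod_cast hd
  refine ⟨d * D, by positivity, ?_⟩
  intro n ρ ε H₀ hρ hε
  obtain ⟨C1, hC1, hone⟩ := few_one K F G hcop hG0 hD n ε hε
  obtain ⟨C2, hC2, htwo'⟩ : ∃ C : ℝ, 0 < C ∧ (TwoPoles K F G →
    ∀ (L : Type) [Field L] [NumberField L] [Algebra K L], Module.finrank ℚ L ≤ n →
      ∀ X : ℝ, 1 ≤ X → ∀ (W : ℝ) (E : Finset L), (∀ t ∈ E, Few K F G L X W t) →
      (E.card : ℝ) ≤ C * X ^ ε * Real.exp (d * W)) := by
    by_cases hT : TwoPoles K F G
    · obtain ⟨C, hC, h⟩ := htwo hT n ε hε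
      exact ⟨C, hC, fun _ => h⟩
    · exact ⟨1, one_pos, fun h => absurd h hT⟩
  set Y₀ : ℝ := n * (|H₀| + logHeight₁ (1728 : ℚ)) with hY₀
  have h1728 : 0 ≤ logHeight₁ (1728 : ℚ) := zero_le_logHeight₁ _
  obtain ⟨C3, hlow⟩ := low_params K F G hcop hD n Y₀
  set C4 : ℝ := C1 * Real.exp (ρ * (n * B)) + C2 * Real.exp (d * (ρ * (n * B))) with hC4
  have hC4pos : 0 < C4 := by positivity
  refine ⟨G.natDegree + C3 + C4, by positivity, ?_⟩
  intro L _ _ _ hL P hP X hX
  have hX0 : (0 : ℝ) < X := by linarith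
  have hlX : 0 ≤ Real.log X := Real.log_nonneg hX
  have hL' : (Module.finrank ℚ L : ℝ) ≤ n := by exact_mod_cast hL
  have hLpos : (0 : ℝ) < Module.finrank ℚ L := by
    exact_mod_cast Module.finrank_pos (R := ℚ) (M := L)
  set W : ℝ := ρ * (D * Real.log X + n * B) with hW
  -- splitting of a finite set of exceptional parameters
  have split : ∀ E : Finset L, (E : Set L) ⊆ Bad K F G L P X →
      (E.card : ℝ) ≤ G.natDegree + C3 +
        ((E.filter fun t => Few K F G L X W t).card : ℝ) := by
    intro E hE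
    set E1 := E.filter (fun t => (G.map (algebraMap K L)).eval t = 0) with hE1
    set E2 := E.filter (fun t => (G.map (algebraMap K L)).eval t ≠ 0 ∧
      logHeight₁ ((F.map (algebraMap K L)).eval t / (G.map (algebraMap K L)).eval t) ≤ Y₀) with hE2
    set E3 := E.filter (fun t => Few K F G L X W t) with hE3
    have hsub : E ⊆ E1 ∪ E2 ∪ E3 := by
      intro t ht
      rw [Finset.mem_union, Finset.mem_union]
      obtain ⟨h1, h2⟩ := hE (Finset.mem_coe.2 ht)
      by_cases g1 : (G.map (algebraMap K L)).eval t = 0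
      · exact Or.inl (Or.inl (Finset.mem_filter.2 ⟨ht, g1⟩))
      by_cases g2 : logHeight₁ ((F.map (algebraMap K L)).eval t /
          (G.map (algebraMap K L)).eval t) ≤ Y₀
      · exact Or.inl (Or.inr (Finset.mem_filter.2 ⟨ht, g1, g2⟩))
      right
      refine Finset.mem_filter.2 ⟨ht, h1, g1, ?_⟩
      have hnP : ¬ P ((F.map (algebraMap K L)).eval t / (G.map (algebraMap K L)).eval t) :=
        fun h => h2 ⟨g1, h⟩
      set j := (F.map (algebraMap K L)).eval t / (G.map (algebraMap K L)).eval t with hj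
      rw [not_le] at g2
      have hY0 : 0 ≤ Y₀ := by positivity
      have hj0 : j ≠ 0 := by
        intro h0
        rw [h0] at g2
        have : logHeight₁ (0 : L) = 0 := logHeight₁_zero
        linarith
      have hj1 : j ≠ 1728 := by
        intro h0
        rw [h0] at g2
        have e : (1728 : L) = algebraMap ℚ L 1728 := by norm_num
        rw [e, ht_ext] at g2
        have h5 := mul_le_mul_of_nonneg_right hL' h1728
        have h6 : (n : ℝ) * logHeight₁ (1728 : ℚ) ≤ Y₀ := by
          rw [hY₀]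
          have : 0 ≤ (n : ℝ) * |H₀| := by positivity
          linarith
        linarith
      have hH : H₀ * Module.finrank ℚ L ≤ logHeight₁ j := by
        have h5 : H₀ * Module.finrank ℚ L ≤ |H₀| * n := by
          refine (mul_le_mul_of_nonneg_right (le_abs_self H₀) hLpos.le).trans ?_
          exact mul_le_mul_of_nonneg_left hL' (abs_nonneg _)
        have h6 : |H₀| * n ≤ Y₀ := by
          rw [hY₀]
          have : 0 ≤ (n : ℝ) * logHeight₁ (1728 : ℚ) := by positivity
          linarith
        linarith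
      have h7 : ¬ (ρ * logHeight₁ j ≤ fa j) := fun h => hnP (hP j hj0 hj1 h hH)
      rw [not_le] at h7
      have h8 : logHeight₁ j ≤ D * Real.log X + n * B := by
        have h9 := hrat L t
        have h10 := ht_le_log h1
        have h11 : (D : ℝ) * logHeight₁ t ≤ D * Real.log X := by gcongr
        have h12 := mul_le_mul_of_nonneg_right hL' hB
        rw [← hj] at h9
        linarith
      have h9 := mul_le_mul_of_nonneg_left h8 hρ
      linarith
    have c1 : E1.card ≤ G.natDegree := by
      refine fibre_poly (G.map (algebraMap K L)) 1 0 _ ?_ natDegree_map_le (by simp) ?_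
      · rw [C_0, zero_mul, sub_zero]
        exact (Polynomial.map_ne_zero_iff (algebraMap K L).injective).2 hG0
      · intro t ht
        rw [hE1, Finset.mem_filter] at ht
        rw [zero_mul]
        exact ht.2
    have c2 : E2.card ≤ C3 := hlow L hL E2 (fun t ht => (Finset.mem_filter.1 ht).2)
    have c3 : E.card ≤ E1.card + E2.card + E3.card := by
      refine (Finset.card_le_card hsub).trans ((Finset.card_union_le _ _).trans ?_)
      exact Nat.add_le_add_right (Finset.card_union_le _ _) _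
    have c4 : E.card ≤ G.natDegree + C3 + E3.card := by omega
    exact_mod_cast c4
  have hpow : ∀ e : ℝ, 0 ≤ e → 1 ≤ X ^ e := fun e he => Real.one_le_rpow hX he
  have b1 : ∀ E : Finset L, (E : Set L) ⊆ Bad K F G L P X →
      (E.card : ℝ) ≤ (G.natDegree + C3 + C4) * X ^ (1 + D * ρ + ε) := by
    intro E hE
    have h1 := split E hE
    have h2 := hone L hL X hX W (E.filter fun t => Few K F G L X W t)
      (fun t ht => (Finset.mem_filter.1 ht).2)
    have h3 : C1 * X ^ (1 + ε) * Real.exp W ≤ C4 * X ^ (1 + D * ρ + ε) := by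
      have e1 : Real.exp W = Real.exp (ρ * (n * B)) * X ^ (ρ * D) := by
        rw [Real.rpow_def_of_pos hX0, ← Real.exp_add, hW]
        congr 1
        ring
      rw [e1]
      have e2 : C1 * X ^ (1 + ε) * (Real.exp (ρ * (n * B)) * X ^ (ρ * D)) =
          C1 * Real.exp (ρ * (n * B)) * X ^ (1 + ε + ρ * D) := by
        rw [Real.rpow_add hX0 (1 + ε)]
        ring
      rw [e2]
      have h4 : X ^ (1 + ε + ρ * D) ≤ X ^ (1 + D * ρ + ε) := by
        refine Real.rpow_le_rpow_of_exponent_le hX (le_of_eq ?_)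
        ring
      have h5 : C1 * Real.exp (ρ * (n * B)) ≤ C4 := by
        rw [hC4]
        have : 0 ≤ C2 * Real.exp (d * (ρ * (n * B))) := by positivity
        linarith
      exact mul_le_mul h5 h4 (by positivity) hC4pos.le
    have h4 := hpow (1 + D * ρ + ε) (by positivity)
    have h5 : (G.natDegree + C3 : ℝ) ≤ (G.natDegree + C3) * X ^ (1 + D * ρ + ε) :=
      le_mul_of_one_le_right (by positivity) h4
    rw [add_mul]
    linarith
  have b2 : TwoPoles K F G → ∀ E : Finset L, (E : Set L) ⊆ Bad K F G L P X →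
      (E.card : ℝ) ≤ (G.natDegree + C3 + C4) * X ^ (d * D * ρ + ε) := by
    intro hT E hE
    have h1 := split E hE
    have h2 := htwo' hT L hL X hX W (E.filter fun t => Few K F G L X W t)
      (fun t ht => (Finset.mem_filter.1 ht).2)
    have h3 : C2 * X ^ ε * Real.exp (d * W) ≤ C4 * X ^ (d * D * ρ + ε) := by
      have e1 : Real.exp (d * W) = Real.exp (d * (ρ * (n * B))) * X ^ (d * D * ρ) := by
        rw [Real.rpow_def_of_pos hX0, ← Real.exp_add, hW]
        congr 1
        ring
      rw [e1]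
      have e2 : C2 * X ^ ε * (Real.exp (d * (ρ * (n * B))) * X ^ (d * D * ρ)) =
          C2 * Real.exp (d * (ρ * (n * B))) * X ^ (d * D * ρ + ε) := by
        rw [Real.rpow_add hX0 (d * D * ρ)]
        ring
      rw [e2]
      have h5 : C2 * Real.exp (d * (ρ * (n * B))) ≤ C4 := by
        rw [hC4]
        have : 0 ≤ C1 * Real.exp (ρ * (n * B)) := by positivity
        linarith
      exact mul_le_mul_of_nonneg_right h5 (by positivity)
    have h4 := hpow (d * D * ρ + ε) (by positivity)
    have h5 : (G.natDegree + C3 : ℝ) ≤ (G.natDegree + C3) * X ^ (d * D * ρ + ε) :=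
      le_mul_of_one_le_right (by positivity) h4
    rw [add_mul]
    linarith
  obtain ⟨f1, f2⟩ := ncard_le_of _ _ b1
  exact ⟨f1, f2, fun hT => (ncard_le_of _ _ (b2 hT)).2⟩

end Pool.Agent.Q271.TP
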