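import Mathlib
import Pool.Agent.Q271.TP.Main
import Pool.Agent.Q237.LT.Tot

/-!
# Several one-parameter families at once, and the number of all parameters
-/

set_option autoImplicit false

namespace Pool.Agent.Q271.TP

open NumberField IsDedekindDomain Height Polynomial
open Pool.Agent.Q237.LT (fa)
open Pool.Agent.Y673.Cnt

/-- finiteness of the number of elements of bounded height -/
theorem height_finite (L : Type) [Field L] [NumberField L] (Y : ℝ) :
    {x : L | logHeight₁ x ≤ Y}.Finite := by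
  obtain ⟨C, h⟩ := low_card (Module.finrank ℚ L) Y
  exact (ncard_le_of _ (C : ℝ) fun E hE => by
    exact_mod_cast h L le_rfl E fun x hx => hE (Finset.mem_coe.2 hx)).1

variable (K : Type) [Field K] [NumberField K]

/-- several families -/
theorem multi_count {r : ℕ} (F G : Fin r → K[X]) (hcop : ∀ i, IsCoprime (F i) (G i))
    (hG0 : ∀ i, G i ≠ 0) (hD : ∀ i, 0 < (F i).natDegree ∨ 0 < (G i).natDegree) :
    ∃ A : ℝ, 0 < A ∧ ∀ (n : ℕ) (ρ ε H₀ : ℝ),
    0 ≤ ρ → 0 < ε → ∃ C : ℝ, 0 < C ∧
    ∀ (L : Type) [Field L] [NumberField L] [Algebra K L], Module.finrank ℚ L ≤ n →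
      ∀ P : Fin r → L → Prop, (∀ i, ∀ j : L, j ≠ 0 → j ≠ 1728 → ρ * logHeight₁ j ≤ fa j →
        H₀ * Module.finrank ℚ L ≤ logHeight₁ j → P i j) →
      ∀ X : ℝ, 1 ≤ X → (⋃ i, Bad K (F i) (G i) L (P i) X).Finite ∧
        ((⋃ i, Bad K (F i) (G i) L (P i) X).ncard : ℝ) ≤
          C * X ^ (1 + (Finset.univ.sup fun i => max (F i).natDegree (G i).natDegree : ℕ) * ρ + ε) ∧
        ((∀ i, TwoPoles K (F i) (G i)) →
          ((⋃ i, Bad K (F i) (G i) L (P i) X).ncard : ℝ) ≤ C * X ^ (A * ρ + ε)) := by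
  classical
  choose A hA h using fun i => family_count K (F i) (G i) (hcop i) (hG0 i) (hD i)
  have hAi : ∀ i, A i ≤ ∑ k, A k + 1 := fun i => by
    have := Finset.single_le_sum (f := A) (fun k _ => (hA k).le) (Finset.mem_univ i)
    linarith
  have hA0 : 0 ≤ ∑ k, A k := Finset.sum_nonneg fun k _ => (hA k).le
  refine ⟨∑ k, A k + 1, by positivity, ?_⟩
  intro n ρ ε H₀ hρ hε
  choose C hC h' using fun i => h i n ρ ε H₀ hρ hε
  have hC0 : 0 ≤ ∑ k, C k := Finset.sum_nonneg fun k _ => (hC k).le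
  refine ⟨∑ k, C k + 1, by positivity, ?_⟩
  intro L _ _ _ hL P hP X hX
  have hX0 : (0 : ℝ) < X := by linarith
  have hall := fun i => h' i L hL (P i) (hP i) X hX
  refine ⟨Set.finite_iUnion fun i => (hall i).1, ?_, ?_⟩
  · refine le_trans (b := ((∑ i, (Bad K (F i) (G i) L (P i) X).ncard : ℕ) : ℝ)) ?_ ?_
    · exact_mod_cast Set.ncard_iUnion_le_of_fintype _
    push_cast
    refine le_trans (b := ∑ i, C i *
      X ^ (1 + (Finset.univ.sup fun i => max (F i).natDegree (G i).natDegree : ℕ) * ρ + ε)) ?_ ?_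
    · refine Finset.sum_le_sum fun i _ => (hall i).2.1.trans ?_
      refine mul_le_mul_of_nonneg_left ?_ (hC i).le
      refine Real.rpow_le_rpow_of_exponent_le hX ?_
      have h1 : max (F i).natDegree (G i).natDegree ≤
          Finset.univ.sup fun i => max (F i).natDegree (G i).natDegree :=
        Finset.le_sup (f := fun i => max (F i).natDegree (G i).natDegree) (Finset.mem_univ i)
      have h2 : ((max (F i).natDegree (G i).natDegree : ℕ) : ℝ) ≤
          ((Finset.univ.sup fun i => max (F i).natDegree (G i).natDegree : ℕ) : ℝ) :=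
        Nat.cast_le.2 h1
      have := mul_le_mul_of_nonneg_right h2 hρ
      linarith
    · rw [← Finset.sum_mul]
      refine mul_le_mul_of_nonneg_right (by linarith) (by positivity)
  · intro hT
    refine le_trans (b := ((∑ i, (Bad K (F i) (G i) L (P i) X).ncard : ℕ) : ℝ)) ?_ ?_
    · exact_mod_cast Set.ncard_iUnion_le_of_fintype _
    push_cast
    refine le_trans (b := ∑ i, C i * X ^ ((∑ k, A k + 1) * ρ + ε)) ?_ ?_
    · refine Finset.sum_le_sum fun i _ => ((hall i).2.2 (hT i)).trans ?_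
      refine mul_le_mul_of_nonneg_left ?_ (hC i).le
      refine Real.rpow_le_rpow_of_exponent_le hX ?_
      have := mul_le_mul_of_nonneg_right (hAi i) hρ
      linarith
    · rw [← Finset.sum_mul]
      refine mul_le_mul_of_nonneg_right (by linarith) (by positivity)

end Pool.Agent.Q271.TP
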