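import Mathlib
import Pool.Agent.Q271.TP.Multi
import Pool.Agent.Q237.LS.Tot

/-!
# The number of all parameters of bounded height
-/

set_option autoImplicit false

namespace Pool.Agent.Q271.TP

open NumberField Height

/-- the number of all parameters of bounded height -/
theorem params_lower {ε : ℝ} (hε : 0 < ε) : ∃ C : ℝ, 0 < C ∧
    ∀ (L : Type) [Field L] [NumberField L] (B : ℝ),
      16 * √(|(NumberField.discr L : ℝ)| ^ (1 / (Module.finrank ℚ L : ℝ))) ≤ B →
      (C⁻¹ * B ^ (2 - ε) * (|(NumberField.discr L : ℝ)| ^ (1 / (Module.finrank ℚ L : ℝ))) ^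
        (-(2 + ε))) ^ Module.finrank ℚ L ≤
          (({t : L | mulHeight₁ t ≤ B ^ Module.finrank ℚ L} : Set L).ncard : ℝ) := by
  obtain ⟨C, hC, h⟩ := Pool.Agent.Q237.LS.inv_lower hε
  refine ⟨C, hC, ?_⟩
  intro L _ _ B hB
  refine (h L B hB).trans ?_
  have hsub : {j : L | j ≠ 0 ∧ j ≠ 1728 ∧ logHeight₁ j ≤ Module.finrank ℚ L * Real.log B} ⊆
      {t : L | mulHeight₁ t ≤ B ^ Module.finrank ℚ L} := by
    rintro j ⟨-, -, hj⟩
    have hB0 : 0 ≤ B := le_trans (by positivity) hB
    rcases hB0.lt_or_eq with hB1 | hB1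
    · rw [Set.mem_setOf_eq, ← Real.log_le_log_iff (mulHeight₁_pos j) (by positivity),
        ← logHeight₁_eq_log_mulHeight₁, Real.log_pow]
      exact hj
    · exfalso
      rw [← hB1] at hB
      have hd : (0 : ℝ) < |(NumberField.discr L : ℝ)| := by
        rw [abs_pos]
        exact_mod_cast NumberField.discr_ne_zero L
      have : (0 : ℝ) < 16 * √(|(NumberField.discr L : ℝ)| ^ (1 / (Module.finrank ℚ L : ℝ))) := by
        positivity
      linarith
  have hfin : ({t : L | mulHeight₁ t ≤ B ^ Module.finrank ℚ L} : Set L).Finite := by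
    refine (height_finite L (Real.log (B ^ Module.finrank ℚ L))).subset ?_
    intro t ht
    exact ht_le_log ht
  exact_mod_cast Set.ncard_le_ncard hsub hfin

end Pool.Agent.Q271.TP
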