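import Mathlib
import Pool.Agent.H440R2.LFL

/-!
# Lemmas for the three Pillai type equations
-/

set_option autoImplicit false

namespace Pool.Agent.Q271.TP

open Finset

lemma lte_em (p : ℕ) (hp : p.Prime) (u i : ℕ) (hu : p ∣ u) (h2 : p = 2 → 4 ∣ u) :
    emultiplicity (p : ℤ) ((1 + (u : ℤ)) ^ i - 1) = emultiplicity (p : ℤ) (u : ℤ) +
      emultiplicity (p : ℤ) (i : ℤ) := by
  have hu' : (p : ℤ) ∣ (u : ℤ) := by exact_mod_cast hu
  have hnd : ¬ (p : ℤ) ∣ 1 + (u : ℤ) := by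
    intro h
    have h1 : (p : ℤ) ∣ 1 := by
      have := dvd_sub h hu'
      simpa using this
    have h3 : (p : ℤ) ∣ ((1 : ℕ) : ℤ) := by exact_mod_cast h1
    rw [Int.natCast_dvd_natCast] at h3
    exact hp.one_lt.ne' (Nat.dvd_one.1 h3)
  by_cases hp2 : p = 2
  · subst hp2
    have h4 : (4 : ℤ) ∣ (1 + (u : ℤ)) - 1 := by
      have := h2 rfl
      rw [add_sub_cancel_left]
      exact_mod_cast this
    have := Int.two_pow_sub_pow' (x := 1 + (u : ℤ)) (y := 1) i h4 (by exact_mod_cast hnd)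
    rw [one_pow, add_sub_cancel_left] at this
    exact_mod_cast this
  · have hodd : Odd p := hp.odd_of_ne_two hp2
    have := Int.emultiplicity_pow_sub_pow hp hodd (x := 1 + (u : ℤ)) (y := 1)
      (by rw [add_sub_cancel_left]; exact hu') hnd i
    rw [one_pow, add_sub_cancel_left] at this
    rw [this]
    congr 1
    exact (Int.natCast_emultiplicity p i).symm

/-- a form of lifting the exponent -/
lemma dvd_mul_of_dvd_pow_sub_one {M u i : ℕ} (hM : ∀ p, p.Prime → p ∣ M → p ∣ u)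
    (h2 : 2 ∣ M → 4 ∣ u) (h : M ∣ (1 + u) ^ i - 1) : M ∣ u * i := by
  rw [Nat.dvd_iff_prime_pow_dvd_dvd]
  intro p k hp hk
  rcases Nat.eq_zero_or_pos k with rfl | hk0
  · simp
  have hpM : p ∣ M := (dvd_pow_self p hk0.ne').trans hk
  have h1 := lte_em p hp u i (hM p hp hpM) (by rintro rfl; exact h2 hpM)
  have h3 : ((p : ℤ) ^ k) ∣ (1 + (u : ℤ)) ^ i - 1 := by
    have h4 : (p ^ k) ∣ (1 + u) ^ i - 1 := hk.trans h
    have h5 : ((p ^ k : ℕ) : ℤ) ∣ (((1 + u) ^ i - 1 : ℕ) : ℤ) := Int.natCast_dvd_natCast.2 h4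
    rw [Nat.cast_sub (Nat.one_le_pow _ _ (by omega))] at h5
    push_cast at h5
    exact h5
  have h4 : (k : ℕ∞) ≤ emultiplicity (p : ℤ) ((1 + (u : ℤ)) ^ i - 1) :=
    pow_dvd_iff_le_emultiplicity.1 h3
  rw [h1, ← emultiplicity_mul (Nat.prime_iff_prime_int.1 hp)] at h4
  have h5 := pow_dvd_iff_le_emultiplicity.2 h4
  exact_mod_cast h5

lemma pow_ne_pow_add_two {A B g : ℕ} (hB : 1 ≤ B) (hg : 2 ≤ g) : A ^ g ≠ B ^ g + 2 := by
  intro h
  have hlt : B < A := by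
    by_contra hcon
    have := Nat.pow_le_pow_left (not_lt.1 hcon) g
    omega
  obtain ⟨k, rfl⟩ : ∃ k, g = k + 2 := ⟨g - 2, by omega⟩
  have h1 : B ^ k ≤ A ^ k := Nat.pow_le_pow_left hlt.le k
  have h2 : B ^ 2 + 3 ≤ A ^ 2 := by
    have : (B + 1) ^ 2 ≤ A ^ 2 := Nat.pow_le_pow_left hlt 2
    nlinarith
  have h3 : 1 ≤ B ^ k := Nat.one_le_pow _ _ hB
  have h4 : B ^ k * (B ^ 2 + 3) ≤ A ^ k * A ^ 2 := Nat.mul_le_mul h1 h2
  rw [pow_add, pow_add] at h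
  nlinarith

lemma coprime_exponents {P Q n k : ℕ} (hQ : 1 ≤ Q) (hn : 1 ≤ n)
    (h : P ^ n = Q ^ k + 2) : Nat.Coprime n k := by
  by_contra hcon
  obtain ⟨n', hn'⟩ := Nat.gcd_dvd_left n k
  obtain ⟨k', hk'⟩ := Nat.gcd_dvd_right n k
  have hg0 : 0 < Nat.gcd n k := Nat.gcd_pos_of_pos_left _ hn
  have hg : 2 ≤ Nat.gcd n k := by
    have : Nat.gcd n k ≠ 1 := hcon
    omega
  apply pow_ne_pow_add_two (A := P ^ n') (B := Q ^ k') (Nat.one_le_pow _ _ hQ) hg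
  rw [← pow_mul, ← pow_mul, mul_comm n', mul_comm k', ← hn', ← hk']
  exact h

/-- if `P ^ n = Q ^ k + 2` then `|k log Q - n log P| ≤ 4 / P ^ n` -/
lemma log_close {P Q n k : ℕ} (hP : 2 ≤ P) (hQ : 2 ≤ Q) (hk : 1 ≤ k)
    (h : P ^ n = Q ^ k + 2) :
    |(k : ℝ) * Real.log Q - n * Real.log P| ≤ 4 / (P : ℝ) ^ n := by
  have hPr : (0 : ℝ) < P := by exact_mod_cast (by omega : 0 < P)
  have hQr : (0 : ℝ) < Q := by exact_mod_cast (by omega : 0 < Q)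
  have hr : (P : ℝ) ^ n = (Q : ℝ) ^ k + 2 := by exact_mod_cast h
  have hQk : (2 : ℝ) ≤ (Q : ℝ) ^ k := by
    have h1 : 2 ^ 1 ≤ Q ^ k := (Nat.pow_le_pow_left hQ 1).trans
      (Nat.pow_le_pow_right (by omega) hk)
    exact_mod_cast h1
  rw [← Real.log_pow, ← Real.log_pow, hr]
  have hpos : (0 : ℝ) < (Q : ℝ) ^ k := by linarith
  rw [abs_sub_comm, ← Real.log_div (by linarith) hpos.ne']
  have h1 : ((Q : ℝ) ^ k + 2) / (Q : ℝ) ^ k = 1 + 2 / (Q : ℝ) ^ k := by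
    field_simp
  rw [h1]
  have h2 : (0 : ℝ) ≤ 2 / (Q : ℝ) ^ k := by positivity
  rw [abs_of_nonneg (Real.log_nonneg (by linarith))]
  have h3 := Real.log_le_sub_one_of_pos (show (0 : ℝ) < 1 + 2 / (Q : ℝ) ^ k by linarith)
  refine h3.trans ?_
  rw [add_sub_cancel_left, div_le_div_iff₀ hpos (by linarith)]
  linarith

end Pool.Agent.Q271.TP
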