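import Pool.Agent.Q271.TP.Basic

/-!
# Consequence of the lower bound for linear forms in two logarithms
-/

set_option autoImplicit false

namespace Pool.Agent.Q271.TP

open Finset

lemma core {P Q n k Y L : ℕ} (hP : 2 ≤ P) (hQ : 2 ≤ Q) (hn : 1 ≤ n) (hk : 1 ≤ k)
    (h : P ^ n = Q ^ k + 2) (hY : 1 ≤ Y) (hPY : Real.log P ≤ Y) (hQY : Real.log Q ≤ Y)
    (hL1 : 1 ≤ L) (hM : 145 * Y * L ≤ n) (hL : 8 * (1 + Real.log (290 * Y * L * (n + k))) ≤ L) :
    (n : ℝ) * Real.log P ≤ 20880 * (Y : ℝ) ^ 2 * (L : ℝ) ^ 2 + 2 := by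
  have h1 := Pool.Agent.H440R2.lfl_core P Q n k Y L hP hQ hn hk
    (coprime_exponents (by omega) hn h) hY hL1 hPY hQY hM hL
  have h2 := log_close hP hQ hk h
  have hPn : (0 : ℝ) < (P : ℝ) ^ n := by
    have : (0 : ℝ) < P := by exact_mod_cast (by omega : 0 < P)
    positivity
  have h3 := h1.trans_le h2
  rw [Real.exp_neg, inv_lt_comm₀ (Real.exp_pos _) (by positivity), inv_div,
    div_lt_iff₀ (by norm_num)] at h3
  have h4 := Real.log_lt_log hPn h3
  rw [Real.log_pow, Real.log_mul (Real.exp_pos _).ne' (by norm_num), Real.log_exp] at h4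
  have h5 : Real.log 4 ≤ 2 := by
    rw [Real.log_le_iff_le_exp (by norm_num)]
    have := Real.quadratic_le_exp_of_nonneg (show (0 : ℝ) ≤ 2 by norm_num)
    linarith
  linarith

lemma growth {l : ℝ} (hl : 32 ≤ l) :
    31000 * ((2 * l + 3) * (16 * l + 1)) ^ 2 ≤ Real.exp l := by
  obtain ⟨h, rfl⟩ : ∃ h, l = 32 + h := ⟨l - 32, by ring⟩
  have hh : 0 ≤ h := by linarith
  rw [Real.exp_add]
  have h1 : (2.7182818 : ℝ) ^ 32 ≤ Real.exp 32 := by
    have : Real.exp 32 = Real.exp 1 ^ 32 := by rw [← Real.exp_nat_mul]; norm_num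
    rw [this]
    exact pow_le_pow_left₀ (by norm_num) (by have := Real.exp_one_gt_d9; linarith) _
  have h2 : (1 + h / 4) ^ 4 ≤ Real.exp h := by
    have : Real.exp h = Real.exp (h / 4) ^ 4 := by rw [← Real.exp_nat_mul]; congr 1; push_cast; ring
    rw [this]
    exact pow_le_pow_left₀ (by positivity) (by have := Real.add_one_le_exp (h / 4); linarith) _
  have h3 : (2 * (32 + h) + 3) * (16 * (32 + h) + 1) ≤ 67 * 513 * (1 + h / 4) ^ 2 := by
    nlinarith
  have h4 : ((2 * (32 + h) + 3) * (16 * (32 + h) + 1)) ^ 2 ≤ (67 * 513 * (1 + h / 4) ^ 2) ^ 2 :=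
    pow_le_pow_left₀ (by positivity) h3 2
  calc 31000 * ((2 * (32 + h) + 3) * (16 * (32 + h) + 1)) ^ 2
      ≤ 31000 * (67 * 513 * (1 + h / 4) ^ 2) ^ 2 := by linarith
    _ = (31000 * (67 * 513) ^ 2) * (1 + h / 4) ^ 4 := by ring
    _ ≤ (2.7182818 : ℝ) ^ 32 * (1 + h / 4) ^ 4 := by
        apply mul_le_mul_of_nonneg_right _ (by positivity)
        norm_num
    _ ≤ Real.exp 32 * Real.exp h := mul_le_mul h1 h2 (by positivity) (by positivity)

lemma log_n_lt {P Q n k Y : ℕ} (hP : 2 ≤ P) (hQ : 2 ≤ Q) (hn : 1 ≤ n) (hk : 1 ≤ k)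
    (h : P ^ n = Q ^ k + 2) (hkn : k ≤ n) (hY : 1 ≤ Y) (hPY : Real.log P ≤ Y)
    (hQY : Real.log Q ≤ Y) (hYn : (Y : ℝ) ≤ 2 * Real.log n + 3) : Real.log n < 32 := by
  by_contra hcon
  rw [not_lt] at hcon
  obtain ⟨l, hl⟩ : ∃ l, l = Real.log n := ⟨_, rfl⟩
  rw [← hl] at hcon hYn
  have hnr : (0 : ℝ) < n := by exact_mod_cast hn
  have hexp : Real.exp l = n := by rw [hl, Real.exp_log hnr]
  obtain ⟨L, hL⟩ : ∃ L : ℕ, L = ⌈16 * l⌉₊ := ⟨_, rfl⟩
  have hL1 : 16 * l ≤ L := by rw [hL]; exact Nat.le_ceil _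
  have hL2 : (L : ℝ) ≤ 16 * l + 1 := by rw [hL]; exact (Nat.ceil_lt_add_one (by linarith)).le
  have hL0 : 1 ≤ L := by
    have : (1 : ℝ) ≤ L := by linarith
    exact_mod_cast this
  have hg := growth hcon
  obtain ⟨w, hw⟩ : ∃ w, w = (2 * l + 3) * (16 * l + 1) := ⟨_, rfl⟩
  rw [← hw, hexp] at hg
  have hYL : (Y : ℝ) * L ≤ w := by
    rw [hw]
    exact mul_le_mul hYn hL2 (by positivity) (by linarith)
  have hYr : (1 : ℝ) ≤ Y := by exact_mod_cast hY
  have hLr : (1 : ℝ) ≤ L := by exact_mod_cast hL0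
  have hYL1 : (1 : ℝ) ≤ (Y : ℝ) * L := one_le_mul_of_one_le_of_one_le hYr hLr
  have hw1 : 1 ≤ w := hYL1.trans hYL
  have hww : w ≤ w ^ 2 := by nlinarith
  have hkr : (k : ℝ) ≤ n := by exact_mod_cast hkn
  have hk0 : (0 : ℝ) ≤ k := Nat.cast_nonneg k
  have hM : 145 * Y * L ≤ n := by
    have : (145 * Y * L : ℝ) ≤ n := by
      rw [mul_assoc]; linarith
    exact_mod_cast this
  have hcond : 8 * (1 + Real.log (290 * Y * L * (n + k))) ≤ L := by
    have h1 : Real.log (290 * Y * L * (n + k)) ≤ Real.log (580 * w * n) := by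
      apply Real.log_le_log (by positivity)
      have h2 : (290 * (Y * L) * (n + k) : ℝ) ≤ 290 * w * (n + k) := by
        apply mul_le_mul_of_nonneg_right _ (by positivity)
        linarith
      have h3 : (290 * w * (n + k) : ℝ) ≤ 290 * w * (2 * n) := by
        apply mul_le_mul_of_nonneg_left _ (by positivity)
        linarith
      calc (290 * Y * L * (n + k) : ℝ) = 290 * (Y * L) * (n + k) := by ring
        _ ≤ 290 * w * (2 * n) := h2.trans h3
        _ = 580 * w * n := by ring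
    have h2 : Real.log (580 * w * n) + 1 ≤ 2 * l := by
      rw [Real.log_mul (by positivity) hnr.ne', ← hl]
      have h3 : Real.log (580 * w) ≤ l - 1 := by
        rw [Real.log_le_iff_le_exp (by positivity)]
        have h4 : Real.exp l = Real.exp (l - 1) * Real.exp 1 := by
          rw [← Real.exp_add]; ring_nf
        have h5 := Real.exp_one_lt_d9
        have h6 : 0 < Real.exp (l - 1) := Real.exp_pos _
        rw [hexp] at h4
        by_contra h7
        rw [not_le] at h7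
        have h8 : (n : ℝ) ≤ 580 * w * 3 := by
          rw [h4]
          apply mul_le_mul h7.le (by linarith) (Real.exp_pos _).le (by positivity)
        linarith
      linarith
    linarith
  have hmain := core hP hQ hn hk h hY hPY hQY hL0 hM hcond
  have hlogP : 0.69 ≤ Real.log P := by
    have h1 : Real.log 2 ≤ Real.log P := Real.log_le_log (by norm_num) (by exact_mod_cast hP)
    have := Real.log_two_gt_d9
    linarith
  have h1 : (20880 : ℝ) * (Y : ℝ) ^ 2 * (L : ℝ) ^ 2 ≤ 20880 * w ^ 2 := by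
    have : ((Y : ℝ) * L) ^ 2 ≤ w ^ 2 := pow_le_pow_left₀ (by positivity) hYL 2
    nlinarith
  have h2 : (n : ℝ) * 0.69 ≤ 20880 * w ^ 2 + 2 :=
    (mul_le_mul_of_nonneg_left hlogP hnr.le).trans (hmain.trans (by linarith))
  nlinarith

/-- the upper bound for the exponents -/
theorem bound {P Q n k Y : ℕ} (hP : 2 ≤ P) (hQ : 2 ≤ Q) (hn : 1 ≤ n) (hk : 1 ≤ k)
    (h : P ^ n = Q ^ k + 2) (hkn : k ≤ n) (hY : 1 ≤ Y) (hPY : Real.log P ≤ Y)
    (hQY : Real.log Q ≤ Y) (hYn : (Y : ℝ) ≤ 2 * Real.log n + 3) :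
    (n : ℝ) * Real.log P ≤ 3340800002 * (Y : ℝ) ^ 2 := by
  have h32 := log_n_lt hP hQ hn hk h hkn hY hPY hQY hYn
  have hYr : (1 : ℝ) ≤ Y := by exact_mod_cast hY
  have hnr : (0 : ℝ) < n := by exact_mod_cast hn
  have hY2 : (1 : ℝ) ≤ (Y : ℝ) ^ 2 := one_le_pow₀ hYr
  rcases Nat.lt_or_ge n (145 * Y * 400) with h1 | h1
  · have h2 : (n : ℝ) ≤ 58000 * Y := by
      have : n ≤ 58000 * Y := by omega
      exact_mod_cast this
    calc (n : ℝ) * Real.log P ≤ 58000 * Y * Y := by
          apply mul_le_mul h2 hPY (Real.log_natCast_nonneg P) (by positivity)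
      _ = 58000 * (Y : ℝ) ^ 2 := by ring
      _ ≤ 3340800002 * (Y : ℝ) ^ 2 := by linarith
  · have hkr : (k : ℝ) ≤ n := by exact_mod_cast hkn
    have hk0 : (0 : ℝ) ≤ k := Nat.cast_nonneg k
    have hcond : 8 * (1 + Real.log (290 * Y * (400 : ℕ) * (n + k))) ≤ ((400 : ℕ) : ℝ) := by
      have h2 : Real.log (290 * Y * (400 : ℕ) * (n + k)) ≤ Real.log (15544000 * n) := by
        apply Real.log_le_log (by push_cast; positivity)
        push_cast
        have h3 : (Y : ℝ) ≤ 67 := by linarith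
        calc (290 * Y * 400 * (n + k) : ℝ) ≤ 290 * 67 * 400 * (n + n) := by gcongr
          _ = 15544000 * n := by ring
      have h3 : Real.log (15544000 * n) ≤ 17 + 32 := by
        rw [Real.log_mul (by norm_num) hnr.ne']
        have h4 : Real.log 15544000 ≤ 17 := by
          rw [Real.log_le_iff_le_exp (by norm_num)]
          have h5 : (2.7182818 : ℝ) ^ 17 ≤ Real.exp 17 := by
            have : Real.exp 17 = Real.exp 1 ^ 17 := by rw [← Real.exp_nat_mul]; norm_num
            rw [this]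
            exact pow_le_pow_left₀ (by norm_num) (by have := Real.exp_one_gt_d9; linarith) _
          refine le_trans ?_ h5
          norm_num
        linarith
      push_cast at h2 ⊢
      linarith
    have h2 := core hP hQ hn hk h hY hPY hQY (by norm_num) h1 hcond
    push_cast at h2
    linarith

end Pool.Agent.Q271.TP
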