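import Pool.Agent.Q271.TP.Mpow

/-!
# The finite check for the second equation
-/

set_option autoImplicit false

namespace Pool.Agent.Q271.TP

/-- certificate of unsolvability modulo `q` -/
def cert2 (v s q e : ℕ) : Bool :=
  let A := v ^ s - 1
  let M := v ^ (s - 1)
  let V := M / Nat.gcd M (v + 2)
  let g := mpow q (v + 1) (2 * V)
  Nat.ble 3 q && Nat.ble (2 * V + 1) (2 ^ 64) && Nat.ble (e + 1) (2 ^ 64) &&
    (bif (A % q).beq 0 then (mpow q g e).beq (1 % q) && !((mpow q 2 e).beq (1 % q))
      else g.beq (1 % q) && (mpow q (q - A % q) e).beq (q - 1))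

/-- the inequality defining the region left by the linear forms in logarithms; `r`, `r'` are the
binary logarithms of `(v + 1) ^ s` and `v + 1` -/
def reg2 (v s r r' : ℕ) : Bool :=
  !(okLg ((v + 1) ^ s) r) || !(okLg (v + 1) r') ||
  Nat.ble (2 * v ^ (s - 1) * (6931 * r'))
    ((v + 2) * (10000 * 3340800002 * ((r + 1) * 6932 / 10000 + 1) ^ 2))

/-- the check -/
def chk2 (d x s : ℕ) : Bool :=
  let v := d ^ x - 1
  !(reg2 v s (lg ((v + 1) ^ s)) (lg (v + 1))) || [3, 5, 7, 11, 13, 17, 43].any fun q =>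
    [1, 2, 3, 5, 6, 8, 21].any fun e => cert2 v s q e

lemma all_chk2 : ((List.range 103).all fun k => (List.range 8).all fun x =>
    [5, 7, 11, 13, 17].all fun s => chk2 (2 * k + 3) (x + 2) s) = true := by
  decide +kernel

end Pool.Agent.Q271.TP
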