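import Pool.Agent.Q271.TP.Basic

/-!
# The first equation has no solutions
-/

set_option autoImplicit false

namespace Pool.Agent.Q271.TP

lemma four_dvd_pow {a n : ℕ} (ha : 2 ∣ a) (hn : 2 ≤ n) : 4 ∣ a ^ n := by
  obtain ⟨b, rfl⟩ := ha
  obtain ⟨k, rfl⟩ : ∃ k, n = k + 2 := ⟨n - 2, by omega⟩
  exact ⟨b ^ 2 * (2 * b) ^ k, by ring⟩

theorem e1 {d x y s t : ℕ} (hd : 2 ≤ d) (hx : 2 ≤ x) (hy : 2 ≤ y) (hs : 2 ≤ s) (ht : 2 ≤ t) :
    ((d ^ x + 1) ^ s + 1) ^ t ≠ d ^ y + 2 := by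
  intro h
  -- `d` is odd
  have hdodd : d % 2 = 1 := by
    by_contra hcon
    have h2 : 2 ∣ d := by omega
    have h4 : 4 ∣ d ^ y := four_dvd_pow h2 hy
    have h5 : d ^ x % 2 = 0 := by
      have := four_dvd_pow h2 hx
      omega
    have h6 : (d ^ x + 1) ^ s % 2 = 1 := by
      rw [Nat.pow_mod, Nat.add_mod, h5]; norm_num
    have h7 : 4 ∣ ((d ^ x + 1) ^ s + 1) ^ t := four_dvd_pow (by omega) ht
    rw [h] at h7
    omega
  obtain ⟨u, hu⟩ : ∃ u, u = d ^ x + 1 := ⟨_, rfl⟩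
  rw [← hu] at h
  have hu2 : 2 ∣ u := by
    have : d ^ x % 2 = 1 := by rw [Nat.pow_mod, hdodd]; norm_num
    omega
  have hus : 4 ∣ u ^ s := four_dvd_pow hu2 hs
  -- `y` is odd
  have hmod : (u ^ s + 1) ^ t % 4 = 1 := by
    rw [Nat.pow_mod]
    have : (u ^ s + 1) % 4 = 1 := by omega
    rw [this]; norm_num
  have hy3 : d ^ y % 4 = 3 := by omega
  have hsq : d ^ 2 % 4 = 1 := by
    have : d % 4 = 1 ∨ d % 4 = 3 := by omega
    rcases this with h1 | h1 <;> rw [Nat.pow_mod, h1]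
  have hyodd : y % 2 = 1 := by
    by_contra hcon
    obtain ⟨k, rfl⟩ : ∃ k, y = 2 * k := ⟨y / 2, by omega⟩
    rw [pow_mul, Nat.pow_mod, hsq] at hy3
    norm_num at hy3
  -- `u ^ s` divides `d ^ y + 1`
  have hdvd : u ^ s ∣ d ^ y + 1 := by
    have h1 : (u ^ s + 1) ^ t - 1 = d ^ y + 1 := by omega
    rw [← h1]
    have := Nat.sub_dvd_pow_sub_pow (u ^ s + 1) 1 t
    simpa using this
  -- `x` is odd
  have hxodd : x % 2 = 1 := by
    by_contra hcon
    have hud : u ∣ d ^ y + 1 := (dvd_pow_self u (by omega)).trans hdvd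
    have h1 : ((d : ZMod u)) ^ x = -1 := by
      have : ((d ^ x + 1 : ℕ) : ZMod u) = 0 := by
        rw [← hu]; exact ZMod.natCast_self u
      push_cast at this
      exact eq_neg_of_add_eq_zero_left this
    have h2 : ((d : ZMod u)) ^ y = -1 := by
      have : ((d ^ y + 1 : ℕ) : ZMod u) = 0 := (ZMod.natCast_eq_zero_iff _ _).2 hud
      push_cast at this
      exact eq_neg_of_add_eq_zero_left this
    have h3 : ((d : ZMod u) ^ x) ^ y = ((d : ZMod u) ^ y) ^ x := by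
      rw [← pow_mul, ← pow_mul, mul_comm]
    rw [h1, h2, Odd.neg_one_pow (Nat.odd_iff.2 hyodd),
      Even.neg_one_pow (Nat.even_iff.2 (by omega))] at h3
    have h4 : ((2 : ℕ) : ZMod u) = 0 := by
      push_cast
      linear_combination -h3
    rw [ZMod.natCast_eq_zero_iff] at h4
    have h5 := Nat.le_of_dvd (by norm_num) h4
    have h6 : 2 ^ 2 ≤ d ^ x := (Nat.pow_le_pow_left hd 2).trans (Nat.pow_le_pow_right (by omega) hx)
    omega
  -- contradiction modulo `2 (d + 1)`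
  have h1 : (d + 1) ^ 2 ∣ u ^ s := by
    have h2 : d + 1 ∣ u := by
      rw [hu]
      have := Odd.nat_add_dvd_pow_add_pow d 1 (Nat.odd_iff.2 hxodd)
      rwa [one_pow] at this
    exact (pow_dvd_pow_of_dvd h2 2).trans (pow_dvd_pow u hs)
  have h2 : 2 * (d + 1) ∣ d ^ y + 1 := by
    refine Dvd.dvd.trans ?_ (h1.trans hdvd)
    rw [sq]
    exact Nat.mul_dvd_mul_right (by omega) _
  obtain ⟨k, hk⟩ : ∃ k, y = 2 * k + 1 := ⟨y / 2, by omega⟩
  have h3 : (d ^ 2) ≡ 1 [MOD 2 * (d + 1)] := by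
    obtain ⟨e, he⟩ : ∃ e, d = 2 * e + 1 := ⟨d / 2, by omega⟩
    have : d ^ 2 = 1 + (2 * (d + 1)) * e := by rw [he]; ring
    rw [this]
    unfold Nat.ModEq
    rw [Nat.add_mul_mod_self_left]
  have h4 : d ^ y + 1 ≡ d + 1 [MOD 2 * (d + 1)] := by
    rw [hk, pow_succ, pow_mul]
    have := ((h3.pow k).mul_right d).add_right 1
    simpa using this
  have h5 : (d + 1) ≡ 0 [MOD 2 * (d + 1)] :=
    h4.symm.trans ((Nat.modEq_zero_iff_dvd).2 h2)
  have h6 := Nat.le_of_dvd (by omega) ((Nat.modEq_zero_iff_dvd).1 h5)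
  omega

end Pool.Agent.Q271.TP
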