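import Pool.Agent.Q271.TP.Bound
import Pool.Agent.Q271.TP.E1
import Pool.Agent.Q271.TP.Check2

/-!
# The second equation has no solutions
-/

set_option autoImplicit false

namespace Pool.Agent.Q271.TP

lemma odd_sq_mod8 {d : ℕ} (h : d % 2 = 1) : d ^ 2 % 8 = 1 := by
  have : d % 8 = 1 ∨ d % 8 = 3 ∨ d % 8 = 5 ∨ d % 8 = 7 := by omega
  rcases this with h1 | h1 | h1 | h1 <;> rw [Nat.pow_mod, h1]

/-- the case of even `t` is excluded by quadratic reciprocity -/
lemma e2_even {d y s t v : ℕ} (hd : d % 2 = 1) (hv : d ∣ v + 1)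
    (hv2 : 2 ∣ v) (hv8 : 8 ≤ v) (hs : s % 2 = 1) (hs3 : 3 ≤ s) (ht : t % 2 = 0) (ht1 : 1 ≤ t)
    (h : d ^ y = (v ^ s - 1) ^ t + 2) : False := by
  have hvs : 8 ∣ v ^ s := by
    have : 2 ^ 3 ∣ v ^ s := (pow_dvd_pow_of_dvd hv2 3).trans (pow_dvd_pow v hs3)
    exact this
  have hvs1 : 8 ≤ v ^ s := Nat.le_of_dvd (by positivity) hvs
  obtain ⟨A, hA⟩ : ∃ A, A = v ^ s - 1 := ⟨_, rfl⟩
  have hA1 : (A : ℤ) = (v : ℤ) ^ s - 1 := by
    rw [hA, Nat.cast_sub (by omega)]; push_cast; ring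
  rw [← hA] at h
  have hA8 : A % 8 = 7 := by omega
  have hdy : d ^ y % 8 = 3 := by
    obtain ⟨r, rfl⟩ : ∃ r, t = 2 * r := ⟨t / 2, by omega⟩
    have h1 : A ^ (2 * r) % 8 = 1 := by
      rw [pow_mul, Nat.pow_mod, odd_sq_mod8 (by omega)]; norm_num
    omega
  have hyodd : y % 2 = 1 := by
    by_contra hcon
    obtain ⟨r, rfl⟩ : ∃ r, y = 2 * r := ⟨y / 2, by omega⟩
    rw [pow_mul, Nat.pow_mod, odd_sq_mod8 hd] at hdy
    norm_num at hdy
  have hd8 : d % 8 = 3 := by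
    obtain ⟨r, rfl⟩ : ∃ r, y = 2 * r + 1 := ⟨y / 2, by omega⟩
    rw [pow_succ, pow_mul, Nat.mul_mod, Nat.pow_mod, odd_sq_mod8 hd] at hdy
    simpa using hdy
  have hAodd : Odd A := Nat.odd_iff.2 (by omega)
  have hdodd : Odd d := Nat.odd_iff.2 hd
  -- the Jacobi symbol of `d` modulo `A`
  have h1 : jacobiSym (((d : ℤ)) ^ y) A = jacobiSym 2 A := by
    apply jacobiSym.mod_left'
    have : ((d : ℤ)) ^ y = (A : ℤ) ^ t + 2 := by exact_mod_cast h
    rw [this]
    obtain ⟨r, rfl⟩ : ∃ r, t = r + 1 := ⟨t - 1, by omega⟩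
    rw [pow_succ, add_comm, Int.add_mul_emod_self_right]
  have h2 : jacobiSym 2 A = 1 := by
    rw [jacobiSym.at_two hAodd, ZMod.χ₈_nat_eq_if_mod_eight]
    rw [if_neg (by omega), if_pos (by omega)]
  rw [jacobiSym.pow_left, h2] at h1
  have h3 : jacobiSym (d : ℤ) A = 1 := by
    rcases jacobiSym.trichotomy (d : ℤ) A with h | h | h
    · rw [h, zero_pow (by omega)] at h1; norm_num at h1
    · exact h
    · rw [h, Odd.neg_one_pow (Nat.odd_iff.2 hyodd)] at h1; norm_num at h1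
  have h4 := jacobiSym.quadratic_reciprocity_three_mod_four (a := d) (b := A) (by omega) (by omega)
  have h5 : jacobiSym (A : ℤ) d = jacobiSym (-2) d := by
    apply jacobiSym.mod_left'
    have hv' : (v : ℤ) ≡ -1 [ZMOD d] := by
      have h6 : (d : ℤ) ∣ (v : ℤ) + 1 := by exact_mod_cast hv
      have := (Int.modEq_zero_iff_dvd).2 h6
      have h7 := this.add_right (-1)
      simpa using h7
    have h6 : (A : ℤ) ≡ -2 [ZMOD d] := by
      rw [hA1]
      have h7 := (hv'.pow s).sub_right 1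
      rw [Odd.neg_one_pow (Nat.odd_iff.2 hs)] at h7
      simpa using h7
    exact h6
  have h6 : jacobiSym (-2) d = 1 := by
    rw [jacobiSym.at_neg_two hdodd, ZMod.χ₈'_nat_eq_if_mod_eight]
    rw [if_neg (by omega), if_pos (by omega)]
  rw [h3, h5, h6] at h4
  norm_num at h4

lemma cert2_sound {v s q e i t : ℕ} (hv : 1 ≤ v) (ht : t % 2 = 1)
    (hdiv : v ^ (s - 1) ∣ (v + 2) * i)
    (h : (v + 1) ^ (2 * i) = (v ^ s - 1) ^ t + 2) (hc : cert2 v s q e = true) : False := by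
  obtain ⟨A, hA⟩ : ∃ A, A = v ^ s - 1 := ⟨_, rfl⟩
  obtain ⟨M, hM⟩ : ∃ M, M = v ^ (s - 1) := ⟨_, rfl⟩
  obtain ⟨V, hV⟩ : ∃ V, V = M / Nat.gcd M (v + 2) := ⟨_, rfl⟩
  rw [cert2] at hc
  simp only [← hA, ← hM, ← hV] at hc h hdiv
  rw [Bool.and_eq_true, Bool.and_eq_true, Bool.and_eq_true, Nat.ble_eq, Nat.ble_eq,
    Nat.ble_eq] at hc
  obtain ⟨⟨⟨hq3, hV64⟩, he64⟩, hc⟩ := hc
  have hM0 : 0 < M := by rw [hM]; positivity
  have hVi : V ∣ i := by
    have hg : 0 < Nat.gcd M (v + 2) := Nat.gcd_pos_of_pos_left _ hM0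
    have h1 : V ∣ ((v + 2) / Nat.gcd M (v + 2)) * i := by
      rw [hV]
      obtain ⟨c, hc⟩ := hdiv
      obtain ⟨a, ha⟩ := Nat.gcd_dvd_left M (v + 2)
      obtain ⟨b, hb⟩ := Nat.gcd_dvd_right M (v + 2)
      have ha' : M / Nat.gcd M (v + 2) = a := by
        apply Nat.div_eq_of_eq_mul_right hg ha
      have hb' : (v + 2) / Nat.gcd M (v + 2) = b := by
        apply Nat.div_eq_of_eq_mul_right hg hb
      rw [ha', hb']
      refine ⟨c, ?_⟩
      apply Nat.eq_of_mul_eq_mul_left hg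
      calc Nat.gcd M (v + 2) * (b * i) = (Nat.gcd M (v + 2) * b) * i := by ring
        _ = (v + 2) * i := by rw [← hb]
        _ = M * c := hc
        _ = (Nat.gcd M (v + 2) * a) * c := by rw [← ha]
        _ = _ := by ring
    have hcop : Nat.Coprime V ((v + 2) / Nat.gcd M (v + 2)) := by
      rw [hV]
      exact Nat.coprime_div_gcd_div_gcd hg
    exact hcop.dvd_of_dvd_mul_left h1
  obtain ⟨c, hc2⟩ := hVi
  have hne : NeZero q := ⟨by omega⟩
  have hg : ((mpow q (v + 1) (2 * V) : ℕ) : ZMod q) = ((v + 1 : ℕ) : ZMod q) ^ (2 * V) :=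
    mpow_cast _ _ _ (by omega)
  obtain ⟨g, hgdef⟩ : ∃ g, g = mpow q (v + 1) (2 * V) := ⟨_, rfl⟩
  rw [← hgdef] at hg hc
  have hh : ((v + 1 : ℕ) : ZMod q) ^ (2 * i) = (A : ZMod q) ^ t + 2 := by
    have := congrArg (Nat.cast : ℕ → ZMod q) h
    push_cast at this ⊢
    exact this
  rw [hc2, show 2 * (V * c) = 2 * V * c by ring, pow_mul, ← hg] at hh
  have h1q : ((1 % q : ℕ) : ZMod q) = 1 := by
    rw [ZMod.natCast_mod]; simp
  have h12 : (1 : ZMod q) ≠ -1 := by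
    intro hcon
    have h2 : ((2 : ℕ) : ZMod q) = 0 := by
      push_cast
      linear_combination hcon
    rw [ZMod.natCast_eq_zero_iff] at h2
    have := Nat.le_of_dvd (by norm_num) h2
    omega
  have hbeq : ∀ a b : ℕ, a.beq b = true → a = b := fun a b h => Nat.eq_of_beq_eq_true h
  cases hAq : (A % q).beq 0 with
  | true =>
    rw [hAq, cond_true, Bool.and_eq_true, Bool.not_eq_true'] at hc
    have hA0 : (A : ZMod q) = 0 := by
      rw [ZMod.natCast_eq_zero_iff]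
      exact Nat.dvd_of_mod_eq_zero (hbeq _ _ hAq)
    rw [hA0, zero_pow (by omega), zero_add] at hh
    have h1 : ((mpow q g e : ℕ) : ZMod q) = 1 := by rw [hbeq _ _ hc.1, h1q]
    rw [mpow_cast _ _ _ (by omega)] at h1
    have h2 : (2 : ZMod q) ^ e = 1 := by
      rw [← hh, ← pow_mul, mul_comm, pow_mul, h1, one_pow]
    have h3 : mpow q 2 e = 1 % q := by
      have h4 : ((mpow q 2 e : ℕ) : ZMod q) = ((1 % q : ℕ) : ZMod q) := by
        rw [mpow_cast _ _ _ (by omega), h1q]; push_cast; exact h2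
      exact mpow_eq_of_cast (by omega) (Nat.mod_lt _ (by omega)) h4
    rw [h3] at hc
    have h7 : Nat.beq (1 % q) (1 % q) = true := Nat.beq_refl _
    rw [h7] at hc
    exact absurd hc.2 (by simp)
  | false =>
    rw [hAq, cond_false, Bool.and_eq_true] at hc
    have hg1 : (g : ZMod q) = 1 := by rw [hbeq _ _ hc.1, h1q]
    rw [hg1, one_pow] at hh
    have hAt : (A : ZMod q) ^ t = -1 := by linear_combination -hh
    have h1 : ((mpow q (q - A % q) e : ℕ) : ZMod q) = -1 := by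
      rw [hbeq _ _ hc.2, Nat.cast_sub (by omega)]; simp
    rw [mpow_cast _ _ _ (by omega), Nat.cast_sub (Nat.mod_lt _ (by omega)).le,
      ZMod.natCast_mod, ZMod.natCast_self, zero_sub] at h1
    have h2 : (-(A : ZMod q)) ^ t = 1 := by
      rw [Odd.neg_pow (Nat.odd_iff.2 ht), hAt, neg_neg]
    apply h12
    calc (1 : ZMod q) = ((-(A : ZMod q)) ^ t) ^ e := by rw [h2, one_pow]
      _ = ((-(A : ZMod q)) ^ e) ^ t := by rw [← pow_mul, mul_comm, pow_mul]
      _ = -1 := by rw [h1, Odd.neg_one_pow (Nat.odd_iff.2 ht)]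

/-- natural number bounds for `⌈log N⌉` and `log N` -/
lemma ceil_log_le {N r : ℕ} (h : N < 2 ^ (r + 1)) (hN : 1 ≤ N) :
    ⌈Real.log N⌉₊ ≤ (r + 1) * 6932 / 10000 + 1 := by
  have h1 : Real.log N ≤ (r + 1) * Real.log 2 := by
    have : Real.log N ≤ Real.log ((2 : ℝ) ^ (r + 1)) := by
      apply Real.log_le_log (by exact_mod_cast hN)
      exact_mod_cast h.le
    rwa [Real.log_pow, Nat.cast_add, Nat.cast_one] at this
  have h2 : Real.log N ≤ (((r + 1) * 6932 : ℕ) : ℝ) / ((10000 : ℕ) : ℝ) := by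
    refine h1.trans ?_
    push_cast
    have := Real.log_two_lt_d9
    have h3 : (0 : ℝ) ≤ r + 1 := by positivity
    nlinarith
  apply Nat.ceil_le.2
  refine h2.trans ?_
  have h4 := Nat.lt_floor_add_one ((((r + 1) * 6932 : ℕ) : ℝ) / ((10000 : ℕ) : ℝ))
  rw [Nat.floor_div_eq_div] at h4
  push_cast at h4 ⊢
  exact h4.le

lemma le_log {N r : ℕ} (h : 2 ^ r ≤ N) : (r : ℝ) * 6931 ≤ 10000 * Real.log N := by
  have h1 : r * Real.log 2 ≤ Real.log N := by
    have : Real.log ((2 : ℝ) ^ r) ≤ Real.log N := by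
      apply Real.log_le_log (by positivity)
      exact_mod_cast h
    rwa [Real.log_pow] at this
  have := Real.log_two_gt_d9
  have h3 : (0 : ℝ) ≤ r := by positivity
  nlinarith

/-- the main estimate for the second equation -/
lemma e2_region {v s i t r r' : ℕ} (hv8 : 8 ≤ v) (hs5 : 5 ≤ s) (ht : 1 ≤ t) (hi : 1 ≤ i)
    (hdiv : v ^ (s - 1) ∣ (v + 2) * i) (h : (v + 1) ^ (2 * i) = (v ^ s - 1) ^ t + 2) :
    reg2 v s r r' = true ∧ (v : ℝ) ^ (s - 2) < Real.exp 32 := by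
  have hvr : (8 : ℝ) ≤ v := by exact_mod_cast hv8
  have hle : v ^ (s - 1) ≤ (v + 2) * i := Nat.le_of_dvd (by positivity) hdiv
  -- `v ^ (s - 2) ≤ 2 i`
  have hle2 : v ^ (s - 2) ≤ 2 * i := by
    have h1 : v ^ (s - 1) = v ^ (s - 2) * v := by
      rw [← pow_succ]; congr 1; omega
    have h2 : v ^ (s - 2) * v ≤ (2 * i) * v := by
      rw [← h1]
      refine hle.trans ?_
      nlinarith
    exact Nat.le_of_mul_le_mul_right h2 (by omega)
  -- `(v + 1) ^ s ≤ (2 i) ^ 2`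
  have h5 : (v + 1) ^ 5 ≤ v ^ 6 := by
    have h1 : (v + 1) * 8 ≤ v * 9 := by omega
    have h2 : ((v + 1) * 8) ^ 5 ≤ (v * 9) ^ 5 := Nat.pow_le_pow_left h1 5
    have h3 : v ^ 6 = v ^ 5 * v := by ring
    have h4 : v ^ 5 * 8 ≤ v ^ 5 * v := Nat.mul_le_mul_left _ hv8
    have h5 : 0 < v ^ 5 := by positivity
    rw [mul_pow, mul_pow] at h2
    norm_num at h2
    nlinarith
  have hpow : (v + 1) ^ s ≤ (2 * i) ^ 2 := by
    obtain ⟨k, rfl⟩ : ∃ k, s = k + 5 := ⟨s - 5, by omega⟩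
    have h1 : (v + 1) ^ k ≤ (v ^ 2) ^ k := Nat.pow_le_pow_left (by nlinarith) k
    calc (v + 1) ^ (k + 5) = (v + 1) ^ k * (v + 1) ^ 5 := pow_add _ _ _
      _ ≤ (v ^ 2) ^ k * v ^ 6 := Nat.mul_le_mul h1 h5
      _ = (v ^ (k + 5 - 2)) ^ 2 := by
          rw [show k + 5 - 2 = k + 3 by omega, ← pow_mul, ← pow_mul, ← pow_add]
          congr 1; ring
      _ ≤ (2 * i) ^ 2 := Nat.pow_le_pow_left hle2 2
  obtain ⟨j, hj⟩ : ∃ j, j = 2 * i := ⟨_, rfl⟩
  rw [← hj] at h hle2 hpow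
  have hj1 : 1 ≤ j := by omega
  have hjr : (0 : ℝ) < j := by exact_mod_cast hj1
  obtain ⟨A, hA⟩ : ∃ A, A = v ^ s - 1 := ⟨_, rfl⟩
  have hvs : v * v ≤ v ^ s := by
    rw [← sq]; exact Nat.pow_le_pow_right (by omega) (by omega)
  have hAv : v + 1 ≤ A := by
    have : 8 * v ≤ v * v := Nat.mul_le_mul_right _ hv8
    omega
  rw [← hA] at h
  have htj : t ≤ j := by
    by_contra hcon
    have h1 : (v + 1) ^ j ≤ (v + 1) ^ t := Nat.pow_le_pow_right (by omega) (by omega)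
    have h2 : (v + 1) ^ t ≤ A ^ t := Nat.pow_le_pow_left hAv t
    omega
  obtain ⟨Y, hY⟩ : ∃ Y : ℕ, Y = ⌈Real.log (((v + 1) ^ s : ℕ) : ℝ)⌉₊ := ⟨_, rfl⟩
  have hYle : Real.log (((v + 1) ^ s : ℕ) : ℝ) ≤ Y := by rw [hY]; exact Nat.le_ceil _
  have hlogv : 0 < Real.log (((v + 1 : ℕ)) : ℝ) := Real.log_pos (by exact_mod_cast (by omega : 1 < v + 1))
  have hlogs : Real.log (((v + 1) ^ s : ℕ) : ℝ) = s * Real.log ((v + 1 : ℕ) : ℝ) := by
    rw [Nat.cast_pow, Real.log_pow]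
  have hY1 : 1 ≤ Y := by
    rw [hY]; apply Nat.one_le_iff_ne_zero.2
    rw [Ne, Nat.ceil_eq_zero, not_le, hlogs]
    have : (0 : ℝ) < s := by exact_mod_cast (by omega : 0 < s)
    positivity
  have hPY : Real.log ((v + 1 : ℕ) : ℝ) ≤ Y := by
    refine le_trans ?_ hYle
    rw [hlogs]
    have : (1 : ℝ) ≤ s := by exact_mod_cast (by omega : 1 ≤ s)
    nlinarith
  have hQY : Real.log (A : ℝ) ≤ Y := by
    refine le_trans ?_ hYle
    apply Real.log_le_log (by exact_mod_cast (by omega : 0 < A))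
    have : A ≤ (v + 1) ^ s := by
      have := Nat.pow_le_pow_left (show v ≤ v + 1 by omega) s
      omega
    exact_mod_cast this
  have hYn : (Y : ℝ) ≤ 2 * Real.log j + 3 := by
    have h1 : (Y : ℝ) ≤ Real.log (((v + 1) ^ s : ℕ) : ℝ) + 1 := by
      rw [hY]
      exact (Nat.ceil_lt_add_one (Real.log_natCast_nonneg _)).le
    have h2 : Real.log (((v + 1) ^ s : ℕ) : ℝ) ≤ Real.log ((j ^ 2 : ℕ) : ℝ) := by
      apply Real.log_le_log (by positivity)
      exact_mod_cast hpow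
    have h3 : Real.log ((j ^ 2 : ℕ) : ℝ) = 2 * Real.log j := by
      rw [Nat.cast_pow, Real.log_pow]; norm_num
    linarith
  have hb := bound (P := v + 1) (Q := A) (n := j) (k := t) (Y := Y) (by omega) (by omega) hj1 ht h
    htj hY1 hPY hQY hYn
  have hl32 := log_n_lt (P := v + 1) (Q := A) (n := j) (k := t) (Y := Y) (by omega) (by omega) hj1 ht h
    htj hY1 hPY hQY hYn
  refine ⟨?_, ?_⟩
  · rw [reg2, Bool.or_eq_true, Bool.or_eq_true]
    by_cases h1 : okLg ((v + 1) ^ s) r = true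
    · by_cases h2 : okLg (v + 1) r' = true
      · right
        rw [Nat.ble_eq]
        have h3 := (okLg_iff h1).2
        have h4 := (okLg_iff h2).1
        have h6 : Y ≤ (r + 1) * 6932 / 10000 + 1 := by
          rw [hY]; exact ceil_log_le h3 (Nat.one_le_pow _ _ (by omega))
        have h7 := le_log h4
        obtain ⟨W, hW⟩ : ∃ W, W = (r + 1) * 6932 / 10000 + 1 := ⟨_, rfl⟩
        rw [← hW] at h6 ⊢
        have h8 : (j : ℝ) * (r' * 6931) ≤ 10000 * 3340800002 * (W : ℝ) ^ 2 := by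
          have h9 : (Y : ℝ) ^ 2 ≤ (W : ℝ) ^ 2 :=
            pow_le_pow_left₀ (by positivity) (by exact_mod_cast h6) 2
          calc (j : ℝ) * (r' * 6931) ≤ j * (10000 * Real.log ((v + 1 : ℕ) : ℝ)) :=
                mul_le_mul_of_nonneg_left h7 hjr.le
            _ = 10000 * (j * Real.log ((v + 1 : ℕ) : ℝ)) := by ring
            _ ≤ 10000 * (3340800002 * (Y : ℝ) ^ 2) := by linarith
            _ ≤ 10000 * (3340800002 * (W : ℝ) ^ 2) := by linarith
            _ = _ := by ring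
        have h9 : j * (r' * 6931) ≤ 10000 * 3340800002 * W ^ 2 := by exact_mod_cast h8
        have h10 : 2 * v ^ (s - 1) ≤ (v + 2) * j := by
          rw [hj]; linarith
        calc 2 * v ^ (s - 1) * (6931 * r') ≤ (v + 2) * j * (6931 * r') :=
              Nat.mul_le_mul_right _ h10
          _ = (v + 2) * (j * (r' * 6931)) := by ring
          _ ≤ (v + 2) * (10000 * 3340800002 * W ^ 2) := Nat.mul_le_mul_left _ h9
      · left; right
        simpa using h2
    · left; left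
      simpa using h1
  · have h1 : (v : ℝ) ^ (s - 2) ≤ j := by exact_mod_cast hle2
    refine h1.trans_lt ?_
    rw [← Real.exp_log hjr]
    exact Real.exp_lt_exp.2 hl32

lemma chk2_of {d x s : ℕ} (hd : d % 2 = 1) (hd3 : 3 ≤ d) (hd2 : d ≤ 207) (hx : 2 ≤ x)
    (hx2 : x ≤ 9) (hs : s = 5 ∨ s = 7 ∨ s = 11 ∨ s = 13 ∨ s = 17) : chk2 d x s = true := by
  have h := all_chk2
  rw [List.all_eq_true] at h
  have h1 := h ((d - 3) / 2) (by rw [List.mem_range]; omega)
  rw [List.all_eq_true] at h1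
  have h2 := h1 (x - 2) (by rw [List.mem_range]; omega)
  rw [List.all_eq_true] at h2
  have h3 := h2 s (by simpa using hs)
  rw [show 2 * ((d - 3) / 2) + 3 = d by omega, show x - 2 + 2 = x by omega] at h3
  exact h3

theorem e2 {d x y s t : ℕ} (hd : 2 ≤ d) (hx : 2 ≤ x) (hy : 2 ≤ y) (hs : 2 ≤ s) (ht : 2 ≤ t) :
    d ^ y ≠ ((d ^ x - 1) ^ s - 1) ^ t + 2 := by
  intro h
  obtain ⟨v, hv⟩ : ∃ v, v = d ^ x - 1 := ⟨_, rfl⟩
  have hdx4 : 4 ≤ d ^ x := (Nat.pow_le_pow_left hd 2).trans (Nat.pow_le_pow_right (by omega) hx)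
  have hv1 : v + 1 = d ^ x := by omega
  rw [← hv] at h
  have hvs : v ^ 2 ≤ v ^ s := Nat.pow_le_pow_right (by omega) hs
  have hv2 : 9 ≤ v ^ 2 := (show 9 = 3 ^ 2 by norm_num) ▸ Nat.pow_le_pow_left (by omega) 2
  -- `d` is odd
  have hdodd : d % 2 = 1 := by
    by_contra hcon
    have h2 : 2 ∣ d := by omega
    have h4 : 4 ∣ d ^ y := four_dvd_pow h2 hy
    have h5 : 4 ∣ d ^ x := four_dvd_pow h2 hx
    have h6 : v ^ s % 2 = 1 := by
      rw [Nat.pow_mod, show v % 2 = 1 by omega]; norm_num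
    have h7 : 4 ∣ (v ^ s - 1) ^ t := four_dvd_pow (by omega) ht
    rw [h] at h4
    omega
  have hd3 : 3 ≤ d := by omega
  have hdx9 : 9 ≤ d ^ x := by
    have : 3 ^ 2 ≤ d ^ x := (Nat.pow_le_pow_left hd3 2).trans (Nat.pow_le_pow_right (by omega) hx)
    exact this
  have hdxodd : d ^ x % 2 = 1 := by rw [Nat.pow_mod, hdodd]; norm_num
  have hveven : 2 ∣ v := by omega
  have hv8 : 8 ≤ v := by omega
  have hdv : d ∣ v + 1 := by rw [hv1]; exact dvd_pow_self d (by omega)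
  -- `s` is odd
  have hsodd : s % 2 = 1 := by
    by_contra hcon
    obtain ⟨r, rfl⟩ : ∃ r, s = 2 * r := ⟨s / 2, by omega⟩
    have h1 : v ^ 2 - 1 ∣ v ^ (2 * r) - 1 := by
      have := Nat.sub_dvd_pow_sub_pow (v ^ 2) 1 r
      rwa [one_pow, ← pow_mul] at this
    have h2 : v + 1 ∣ v ^ 2 - 1 := by
      have : v ^ 2 - 1 = (v + 1) * (v - 1) := by
        have := Nat.sq_sub_sq v 1
        simpa using this
      rw [this]; exact dvd_mul_right _ _
    have h3 : d ∣ (v ^ (2 * r) - 1) ^ t := ((hdv.trans h2).trans h1).trans (dvd_pow_self _ (by omega))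
    have h4 : d ∣ d ^ y := dvd_pow_self d (by omega)
    rw [h] at h4
    have h5 : d ∣ 2 := (Nat.dvd_add_right h3).1 h4
    have := Nat.le_of_dvd (by norm_num) h5
    omega
  have hs3 : 3 ≤ s := by omega
  -- `t` is odd
  have htodd : t % 2 = 1 := by
    by_contra hcon
    exact e2_even hdodd hdv hveven hv8 hsodd hs3 (by omega) (by omega) h
  -- `v ^ s ∣ d ^ y - 1`
  have hdvd : v ^ s ∣ d ^ y - 1 := by
    have h1 := Odd.nat_add_dvd_pow_add_pow (v ^ s - 1) 1 (Nat.odd_iff.2 htodd)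
    rw [one_pow] at h1
    have h2 : v ^ s - 1 + 1 = v ^ s := by omega
    have h3 : (v ^ s - 1) ^ t + 1 = d ^ y - 1 := by omega
    rwa [h2, h3] at h1
  -- `x ∣ y`
  have hxy : x ∣ y := by
    have h1 : d ^ x - 1 ∣ Nat.gcd (d ^ x - 1) (d ^ y - 1) := by
      apply Nat.dvd_gcd dvd_rfl
      rw [← hv]
      exact (dvd_pow_self v (by omega)).trans hdvd
    rw [Nat.pow_sub_one_gcd_pow_sub_one] at h1
    have hg : 0 < Nat.gcd x y := Nat.gcd_pos_of_pos_left _ (by omega)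
    have h2 : 2 ≤ d ^ Nat.gcd x y := hd.trans (Nat.le_self_pow hg.ne' d)
    have h3 := Nat.le_of_dvd (by omega) h1
    have h4 : d ^ x ≤ d ^ Nat.gcd x y := by omega
    have h5 := (Nat.pow_le_pow_iff_right (by omega : 1 < d)).1 h4
    have h6 := Nat.gcd_le_left y (by omega : 0 < x)
    have h7 : Nat.gcd x y = x := by omega
    exact Nat.gcd_eq_left_iff_dvd.1 h7
  obtain ⟨j, rfl⟩ := hxy
  rw [pow_mul, ← hv1] at h hdvd
  have hj0 : 0 < j := by
    rcases Nat.eq_zero_or_pos j with rfl | h0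
    · simp at hy
    · exact h0
  -- `j` is even
  have hjeven : j % 2 = 0 := by
    by_contra hcon
    obtain ⟨k, hk⟩ : ∃ k, j = 2 * k + 1 := ⟨j / 2, by omega⟩
    have h3 : (v + 1) ^ 2 ≡ 1 [MOD 2 * v] := by
      obtain ⟨e, he⟩ := hveven
      have : (v + 1) ^ 2 = 1 + (2 * v) * (e + 1) := by rw [he]; ring
      rw [this]
      unfold Nat.ModEq
      rw [Nat.add_mul_mod_self_left]
    have h4 : (v + 1) ^ j ≡ v + 1 [MOD 2 * v] := by
      rw [hk, pow_succ, pow_mul]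
      have := (h3.pow k).mul_right (v + 1)
      simpa using this
    have h5 : 2 * v ∣ (v + 1) ^ j - 1 := by
      refine Dvd.dvd.trans ?_ hdvd
      obtain ⟨k', rfl⟩ : ∃ k', s = k' + 2 := ⟨s - 2, by omega⟩
      rw [pow_succ, pow_succ, mul_assoc]
      exact Dvd.dvd.mul_left (Nat.mul_dvd_mul_right hveven v) _
    have h6 : (v + 1) ^ j ≡ 1 [MOD 2 * v] := by
      exact ((Nat.modEq_iff_dvd' (Nat.one_le_pow _ _ (by omega))).2 h5).symm
    have h7 : v + 1 ≡ 0 + 1 [MOD 2 * v] := h4.symm.trans (by simpa using h6)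
    have h8 := Nat.ModEq.add_right_cancel' 1 h7
    have h9 := Nat.le_of_dvd (by omega) ((Nat.modEq_zero_iff_dvd).1 h8)
    omega
  obtain ⟨i, rfl⟩ : ∃ i, j = 2 * i := ⟨j / 2, by omega⟩
  -- divisibility of `i`
  have hdiv : v ^ (s - 1) ∣ (v + 2) * i := by
    have h1 : v ^ s ∣ (1 + v * (v + 2)) ^ i - 1 := by
      have : (1 + v * (v + 2)) = (v + 1) ^ 2 := by ring
      rw [this, ← pow_mul]; exact hdvd
    have h2 := dvd_mul_of_dvd_pow_sub_one (M := v ^ s) (u := v * (v + 2)) (i := i)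
      (fun p hp hpd => (hp.dvd_of_dvd_pow hpd).trans (dvd_mul_right _ _))
      (fun _ => by
        have : 2 * 2 ∣ v * (v + 2) := Nat.mul_dvd_mul hveven (by omega)
        exact this) h1
    have h3 : v ^ s = v * v ^ (s - 1) := by rw [← pow_succ']; congr 1; omega
    rw [h3, mul_assoc] at h2
    exact Nat.dvd_of_mul_dvd_mul_left (by omega) h2
  -- `3 ∤ s`
  have hs3' : s % 3 ≠ 0 := by
    intro hcon
    obtain ⟨r, rfl⟩ : ∃ r, s = 3 * r := ⟨s / 3, by omega⟩
    obtain ⟨N, hN⟩ : ∃ N, N = v ^ 2 + v + 1 := ⟨_, rfl⟩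
    have hNA : N ∣ v ^ (3 * r) - 1 := by
      have h1 : v ^ 3 - 1 ∣ v ^ (3 * r) - 1 := by
        have := Nat.sub_dvd_pow_sub_pow (v ^ 3) 1 r
        rwa [one_pow, ← pow_mul] at this
      refine Dvd.dvd.trans ⟨v - 1, ?_⟩ h1
      rw [hN]
      obtain ⟨w, rfl⟩ : ∃ w, v = w + 1 := ⟨v - 1, by omega⟩
      rw [Nat.add_sub_cancel]
      apply Nat.sub_eq_of_eq_add
      ring
    have hNt : (N : ℤ) ∣ ((v ^ (3 * r) - 1 : ℕ) : ℤ) ^ t := by
      have := (Int.natCast_dvd_natCast.2 hNA).trans (dvd_pow_self _ (by omega : t ≠ 0))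
      exact this
    have h2 : ((v : ℤ) + 1) ^ (2 * i) ≡ 2 [ZMOD N] := by
      have h3 : ((v : ℤ) + 1) ^ (2 * i) = ((v ^ (3 * r) - 1 : ℕ) : ℤ) ^ t + 2 := by exact_mod_cast h
      rw [h3]
      have := ((Int.modEq_zero_iff_dvd).2 hNt).add_right 2
      simpa using this
    have hNz : (N : ℤ) = (v : ℤ) ^ 2 + v + 1 := by rw [hN]; push_cast; ring
    have h3 : ((v : ℤ) + 1) ^ 2 ≡ v [ZMOD N] := by
      apply Int.ModEq.symm
      rw [Int.modEq_iff_dvd]
      exact ⟨1, by rw [hNz]; ring⟩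
    have h4 : (v : ℤ) ^ 3 ≡ 1 [ZMOD N] := by
      apply Int.ModEq.symm
      rw [Int.modEq_iff_dvd]
      exact ⟨v - 1, by rw [hNz]; ring⟩
    have h5 : (v : ℤ) ^ i ≡ 2 [ZMOD N] := by
      refine Int.ModEq.trans ?_ h2
      rw [pow_mul]
      exact (h3.pow i).symm
    have hvz : (8 : ℤ) ≤ v := by exact_mod_cast hv8
    obtain ⟨k, hk⟩ : ∃ k, i = 3 * k + i % 3 := ⟨i / 3, by omega⟩
    have h6 : (v : ℤ) ^ (i % 3) ≡ 2 [ZMOD N] := by
      refine Int.ModEq.trans ?_ h5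
      have h7 : (v : ℤ) ^ i = ((v : ℤ) ^ 3) ^ k * (v : ℤ) ^ (i % 3) := by
        rw [← pow_mul, ← pow_add, ← hk]
      rw [h7]
      have := (h4.pow k).mul_right ((v : ℤ) ^ (i % 3))
      simpa using this.symm
    have h7 : i % 3 = 0 ∨ i % 3 = 1 ∨ i % 3 = 2 := by omega
    rcases h7 with h7 | h7 | h7 <;> rw [h7, Int.modEq_iff_dvd, hNz] at h6
    · have := Int.le_of_dvd (by norm_num) h6
      nlinarith
    · rw [pow_one, ← dvd_neg, neg_sub] at h6
      have := Int.le_of_dvd (by linarith) h6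
      nlinarith
    · rw [← dvd_neg, neg_sub] at h6
      have := Int.le_of_dvd (by nlinarith) h6
      nlinarith
  have hs5 : 5 ≤ s := by omega
  -- the bounds
  obtain ⟨-, hexp⟩ := e2_region (r := 0) (r' := 0) hv8 hs5 (by omega) (by omega) hdiv h
  have hexp2 : Real.exp 32 < 80000000000000 := by
    have : Real.exp 32 = Real.exp 1 ^ 32 := by rw [← Real.exp_nat_mul]; norm_num
    rw [this]
    calc Real.exp 1 ^ 32 ≤ (2.7182818286 : ℝ) ^ 32 :=
          pow_le_pow_left₀ (Real.exp_pos _).le Real.exp_one_lt_d9.le _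
      _ < 80000000000000 := by norm_num
  have hvlt : v ^ (s - 2) < 80000000000000 := by
    have := hexp.trans hexp2
    exact_mod_cast this
  have hs17 : s ≤ 17 := by
    by_contra hcon
    have h1 : 8 ^ 16 ≤ v ^ (s - 2) :=
      (Nat.pow_le_pow_left hv8 16).trans (Nat.pow_le_pow_right (by omega) (by omega))
    norm_num at h1
    omega
  have hv3 : v ^ 3 < 80000000000000 :=
    lt_of_le_of_lt (Nat.pow_le_pow_right (by omega) (by omega)) hvlt
  have hv43 : v < 43100 := by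
    by_contra hcon
    have h1 : 43100 ^ 3 ≤ v ^ 3 := Nat.pow_le_pow_left (by omega) 3
    norm_num at h1
    omega
  have hd207 : d ≤ 207 := by
    by_contra hcon
    have h1 : 208 ^ 2 ≤ d ^ x := (Nat.pow_le_pow_left (by omega) 2).trans
      (Nat.pow_le_pow_right (by omega) hx)
    norm_num at h1
    omega
  have hx9 : x ≤ 9 := by
    by_contra hcon
    have h1 : 3 ^ 10 ≤ d ^ x := (Nat.pow_le_pow_left hd3 10).trans
      (Nat.pow_le_pow_right (by omega) (by omega))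
    norm_num at h1
    omega
  have hc := chk2_of (s := s) hdodd hd3 hd207 hx hx9 (by omega)
  rw [chk2, ← hv] at hc
  simp only [Bool.or_eq_true, Bool.not_eq_true', List.any_eq_true] at hc
  rcases hc with hc | ⟨q, -, e, -, hc⟩
  · have h1 := (e2_region (r := lg ((v + 1) ^ s)) (r' := lg (v + 1)) hv8 hs5 (by omega) (by omega)
      hdiv h).1
    rw [h1] at hc
    exact absurd hc (by simp)
  · exact cert2_sound (by omega) htodd hdiv h hc

end Pool.Agent.Q271.TP
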