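import Pool.Agent.Q271.TP.Sound3

/-!
# The third equation has no solutions
-/

set_option autoImplicit false

namespace Pool.Agent.Q271.TP

/-- what is known elementarily about a solution -/
structure Sol (d x y s m : ℕ) : Prop where
  d2 : 2 ≤ d
  x2 : 2 ≤ x
  s2 : 2 ≤ s
  m2 : 2 ≤ m
  deven : d % 2 = 0
  modd : m % 2 = 1
  xy : x < y
  div : d ^ (y - x) ∣ s
  eq : (d ^ x + 1) ^ s = (d ^ y - 1) ^ m + 2

lemma sol_of {d x y s m : ℕ} (hd : 2 ≤ d) (hx : 2 ≤ x) (hy : 2 ≤ y) (hs : 2 ≤ s) (hm : 2 ≤ m)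
    (hxy : x ≠ y) (h : (d ^ x + 1) ^ s = (d ^ y - 1) ^ m + 2) : Sol d x y s m := by
  have hdy4 : 4 ≤ d ^ y := (Nat.pow_le_pow_left hd 2).trans (Nat.pow_le_pow_right (by omega) hy)
  obtain ⟨a, ha⟩ : ∃ a, a = d ^ x + 1 := ⟨_, rfl⟩
  obtain ⟨b, hb⟩ : ∃ b, b = d ^ y - 1 := ⟨_, rfl⟩
  rw [← ha, ← hb] at h
  have hdeven : d % 2 = 0 := by
    by_contra hcon
    have h1 : d ^ x % 2 = 1 := by rw [Nat.pow_mod, show d % 2 = 1 by omega]; norm_num
    have h2 : d ^ y % 2 = 1 := by rw [Nat.pow_mod, show d % 2 = 1 by omega]; norm_num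
    have h3 : 4 ∣ a ^ s := four_dvd_pow (by omega) hs
    have h4 : 4 ∣ b ^ m := four_dvd_pow (by omega) hm
    omega
  have h2d : 2 ∣ d := by omega
  have hx4 : 4 ∣ d ^ x := four_dvd_pow h2d hx
  have hy4 : 4 ∣ d ^ y := four_dvd_pow h2d hy
  have has : a ^ s % 4 = 1 := by
    rw [Nat.pow_mod, show a % 4 = 1 by omega]; norm_num
  have hmodd : m % 2 = 1 := by
    by_contra hcon
    obtain ⟨r, rfl⟩ : ∃ r, m = 2 * r := ⟨m / 2, by omega⟩
    have : b ^ (2 * r) % 4 = 1 := by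
      rw [pow_mul, Nat.pow_mod, Nat.pow_mod b, show b % 4 = 3 by omega]; norm_num
    omega
  -- `b ^ m ≡ b` modulo `2 d ^ y`
  have hmod : b ^ m ≡ b [MOD 2 * d ^ y] := by
    have h3 : b ^ 2 ≡ 1 [MOD 2 * d ^ y] := by
      obtain ⟨e, he⟩ := hy4
      apply Nat.ModEq.symm
      rw [Nat.modEq_iff_dvd' (Nat.one_le_pow _ _ (by omega))]
      refine ⟨2 * e - 1, ?_⟩
      have hb' : b + 1 = 4 * e := by omega
      obtain ⟨e', rfl⟩ : ∃ e', e = e' + 1 := ⟨e - 1, by omega⟩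
      have hb2 : b = 4 * e' + 3 := by omega
      rw [he, hb2, show 2 * (e' + 1) - 1 = 2 * e' + 1 by omega]
      apply Nat.sub_eq_of_eq_add
      ring
    obtain ⟨k, hk⟩ : ∃ k, m = 2 * k + 1 := ⟨m / 2, by omega⟩
    rw [hk, pow_succ, pow_mul]
    have := (h3.pow k).mul_right b
    simpa using this
  have hlt : x < y := by
    by_contra hcon
    have h1 : 2 * d ^ y ∣ a ^ s - 1 := by
      have h2 : 2 * d ^ y ∣ d ^ x := by
        have h3 : d ^ x = d ^ (x - y) * d ^ y := by rw [← pow_add]; congr 1; omega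
        rw [h3]
        exact Nat.mul_dvd_mul_right (h2d.trans (dvd_pow_self d (by omega))) _
      have h4 : a - 1 ∣ a ^ s - 1 := by
        have := Nat.sub_dvd_pow_sub_pow a 1 s
        rwa [one_pow] at this
      rw [show a - 1 = d ^ x by omega] at h4
      exact h2.trans h4
    have h2 : a ^ s - 1 = b ^ m + 1 := by omega
    rw [h2] at h1
    have h3 : b + 1 ≡ 0 [MOD 2 * d ^ y] :=
      ((hmod.add_right 1).symm).trans ((Nat.modEq_zero_iff_dvd).2 h1)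
    have h4 := Nat.le_of_dvd (by omega) ((Nat.modEq_zero_iff_dvd).1 h3)
    omega
  have hdiv : d ^ (y - x) ∣ s := by
    have h1 : d ^ y ∣ (1 + d ^ x) ^ s - 1 := by
      have h2 := Odd.nat_add_dvd_pow_add_pow b 1 (Nat.odd_iff.2 hmodd)
      rw [one_pow, show b + 1 = d ^ y by omega] at h2
      rw [show 1 + d ^ x = a by omega]
      have h3 : a ^ s - 1 = b ^ m + 1 := by omega
      rw [h3]; exact h2
    have h2 := dvd_mul_of_dvd_pow_sub_one (M := d ^ y) (u := d ^ x) (i := s)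
      (fun p hp hpd => (hp.dvd_of_dvd_pow hpd).trans (dvd_pow_self d (by omega)))
      (fun _ => hx4) h1
    have h3 : d ^ y = d ^ x * d ^ (y - x) := by rw [← pow_add]; congr 1; omega
    rw [h3] at h2
    exact Nat.dvd_of_mul_dvd_mul_left (by positivity) h2
  exact ⟨hd, hx, hs, hm, hdeven, hmodd, hlt, hdiv, by rw [← ha, ← hb]; exact h⟩

namespace Sol

variable {d x y s m : ℕ}

lemma gcd_odd (S : Sol d x y s m) : y / Nat.gcd x y % 2 ≠ 0 := by
  intro hcon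
  have hx := S.x2
  have hg : 0 < Nat.gcd x y := Nat.gcd_pos_of_pos_left _ (by omega)
  obtain ⟨x', hx'⟩ := Nat.gcd_dvd_left x y
  obtain ⟨y', hy'⟩ := Nat.gcd_dvd_right x y
  obtain ⟨g, hgdef⟩ : ∃ g, g = Nat.gcd x y := ⟨_, rfl⟩
  rw [← hgdef] at hg hx' hy' hcon
  have hy2 : y / g = y' := Nat.div_eq_of_eq_mul_right hg hy'
  rw [hy2] at hcon
  have hcop : Nat.Coprime x' y' := by
    have := Nat.coprime_div_gcd_div_gcd (m := x) (n := y) (by rw [← hgdef]; exact hg)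
    rwa [← hgdef, Nat.div_eq_of_eq_mul_right hg hx', hy2] at this
  have hxo : x' % 2 = 1 := by
    by_contra h2
    have h3 : 2 ∣ Nat.gcd x' y' := Nat.dvd_gcd (by omega) (by omega)
    rw [hcop] at h3
    omega
  have h1 : d ^ g + 1 ∣ d ^ x + 1 := by
    have := Odd.nat_add_dvd_pow_add_pow (d ^ g) 1 (Nat.odd_iff.2 hxo)
    rwa [one_pow, ← pow_mul, ← hx'] at this
  have h2 : d ^ g + 1 ∣ d ^ y - 1 := by
    obtain ⟨k, hk⟩ : ∃ k, y' = 2 * k := ⟨y' / 2, by omega⟩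
    have h3 : (d ^ g) ^ 2 - 1 ∣ ((d ^ g) ^ 2) ^ k - 1 := by
      have := Nat.sub_dvd_pow_sub_pow ((d ^ g) ^ 2) 1 k
      rwa [one_pow] at this
    rw [← pow_mul, ← pow_mul, mul_assoc, ← hk, ← hy'] at h3
    have h4 : d ^ g + 1 ∣ (d ^ g) ^ 2 - 1 := by
      have h5 : (d ^ g) ^ 2 - 1 = (d ^ g + 1) * (d ^ g - 1) := by
        have := Nat.sq_sub_sq (d ^ g) 1
        simpa using this
      rw [h5]; exact dvd_mul_right _ _
    rw [← pow_mul] at h4
    exact h4.trans h3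
  have h3 : d ^ g + 1 ∣ 2 := by
    have h4 : d ^ g + 1 ∣ (d ^ y - 1) ^ m + 2 := by
      rw [← S.eq]
      have := S.s2
      exact h1.trans (dvd_pow_self _ (by omega))
    have := S.m2
    exact (Nat.dvd_add_right (h2.trans (dvd_pow_self _ (by omega)))).1 h4
  have h4 := Nat.le_of_dvd (by norm_num) h3
  have h5 : 2 ≤ d ^ g := S.d2.trans (Nat.le_self_pow hg.ne' d)
  omega

lemma three (S : Sol d x y s m) (h3y : y % 3 = 0) (h3x : x % 3 ≠ 0) : d = 2 := by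
  have hd2 := S.d2
  by_contra hd
  obtain ⟨N, hN⟩ : ∃ N, N = d ^ 2 + d + 1 := ⟨_, rfl⟩
  have hNz : (N : ℤ) = (d : ℤ) ^ 2 + d + 1 := by rw [hN]; push_cast; ring
  have hd3 : (d : ℤ) ^ 3 ≡ 1 [ZMOD N] := by
    apply Int.ModEq.symm
    rw [Int.modEq_iff_dvd]
    exact ⟨d - 1, by rw [hNz]; ring⟩
  have hdz : (3 : ℤ) ≤ d := by exact_mod_cast (by omega : 3 ≤ d)
  have hdy : 1 ≤ d ^ y := Nat.one_le_pow _ _ (by omega)
  have hdy1 : (d : ℤ) ^ y ≡ 1 [ZMOD N] := by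
    obtain ⟨k, rfl⟩ : ∃ k, y = 3 * k := ⟨y / 3, by omega⟩
    rw [pow_mul]
    have := hd3.pow k
    simpa using this
  have heq : ((d : ℤ) ^ x + 1) ^ s = ((d : ℤ) ^ y - 1) ^ m + 2 := by
    have := S.eq
    have h1 : (((d ^ x + 1) ^ s : ℕ) : ℤ) = (((d ^ y - 1) ^ m + 2 : ℕ) : ℤ) := by rw [this]
    push_cast [Nat.cast_sub hdy] at h1
    exact h1
  have h2 : ((d : ℤ) ^ x + 1) ^ s ≡ 2 [ZMOD N] := by
    rw [heq]
    have h3 := ((hdy1.sub_right 1).pow m).add_right 2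
    have hm := S.m2
    rw [sub_self, zero_pow (by omega), zero_add] at h3
    exact h3
  -- `(d ^ x + 1) ^ 2` is a power of `d`
  have hs2 : s % 2 = 0 := by
    have h1 : d ∣ s := (dvd_pow_self d (by have := S.xy; omega)).trans S.div
    have h2 : 2 ∣ d := by have := S.deven; omega
    have := h2.trans h1
    omega
  obtain ⟨r, hr⟩ : ∃ r, s = 2 * r := ⟨s / 2, by omega⟩
  obtain ⟨k, hk⟩ : ∃ k, x = 3 * k + x % 3 := ⟨x / 3, by omega⟩
  have hdx : (d : ℤ) ^ x ≡ (d : ℤ) ^ (x % 3) [ZMOD N] := by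
    have h7 : (d : ℤ) ^ x = ((d : ℤ) ^ 3) ^ k * (d : ℤ) ^ (x % 3) := by
      rw [← pow_mul, ← pow_add, ← hk]
    rw [h7]
    have := (hd3.pow k).mul_right ((d : ℤ) ^ (x % 3))
    simpa using this
  obtain ⟨w, hw⟩ : ∃ w : ℕ, ((d : ℤ) ^ x + 1) ^ 2 ≡ (d : ℤ) ^ w [ZMOD N] := by
    have h7 : x % 3 = 1 ∨ x % 3 = 2 := by omega
    have h8 := (hdx.add_right 1).pow 2
    rcases h7 with h7 | h7
    · refine ⟨1, h8.trans ?_⟩
      rw [h7]
      apply Int.ModEq.symm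
      rw [Int.modEq_iff_dvd]
      exact ⟨1, by rw [hNz]; ring⟩
    · refine ⟨2, h8.trans ?_⟩
      rw [h7]
      apply Int.ModEq.symm
      rw [Int.modEq_iff_dvd]
      exact ⟨(d : ℤ) ^ 2 - d + 1, by rw [hNz]; ring⟩
  have h5 : (d : ℤ) ^ (w * r) ≡ 2 [ZMOD N] := by
    refine Int.ModEq.trans ?_ h2
    rw [hr, pow_mul, pow_mul]
    exact (hw.pow r).symm
  obtain ⟨n, hn⟩ : ∃ n, n = w * r := ⟨_, rfl⟩
  rw [← hn] at h5
  obtain ⟨k', hk'⟩ : ∃ k', n = 3 * k' + n % 3 := ⟨n / 3, by omega⟩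
  have h6 : (d : ℤ) ^ (n % 3) ≡ 2 [ZMOD N] := by
    refine Int.ModEq.trans ?_ h5
    have h7 : (d : ℤ) ^ n = ((d : ℤ) ^ 3) ^ k' * (d : ℤ) ^ (n % 3) := by
      rw [← pow_mul, ← pow_add, ← hk']
    rw [h7]
    have := (hd3.pow k').mul_right ((d : ℤ) ^ (n % 3))
    simpa using this.symm
  have h7 : n % 3 = 0 ∨ n % 3 = 1 ∨ n % 3 = 2 := by omega
  rcases h7 with h7 | h7 | h7 <;> rw [h7, Int.modEq_iff_dvd, hNz] at h6
  · have := Int.le_of_dvd (by norm_num) h6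
    nlinarith
  · rw [pow_one, ← dvd_neg, neg_sub] at h6
    have := Int.le_of_dvd (by linarith) h6
    nlinarith
  · rw [← dvd_neg, neg_sub] at h6
    have := Int.le_of_dvd (by nlinarith) h6
    nlinarith

end Sol

end Pool.Agent.Q271.TP
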