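import Pool.Agent.Q271.TP.E3

/-!
# The third equation has no solutions: end of the proof
-/

set_option autoImplicit false

namespace Pool.Agent.Q271.TP

lemma log_three_half : (0.4 : ℝ) ≤ Real.log (3 / 2) := by
  have h1 : Real.exp 2 ≤ (3 / 2 : ℝ) ^ 5 := by
    have : Real.exp 2 = Real.exp 1 ^ 2 := by rw [← Real.exp_nat_mul]; norm_num
    rw [this]
    calc Real.exp 1 ^ 2 ≤ (2.7182818286 : ℝ) ^ 2 :=
          pow_le_pow_left₀ (Real.exp_pos _).le Real.exp_one_lt_d9.le _
      _ ≤ (3 / 2 : ℝ) ^ 5 := by norm_num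
  have h2 := Real.log_le_log (Real.exp_pos _) h1
  rw [Real.log_exp, Real.log_pow] at h2
  push_cast at h2
  linarith

lemma log_five : (1.5 : ℝ) ≤ Real.log 5 := by
  have h1 : Real.exp 3 ≤ (5 : ℝ) ^ 2 := by
    have : Real.exp 3 = Real.exp 1 ^ 3 := by rw [← Real.exp_nat_mul]; norm_num
    rw [this]
    calc Real.exp 1 ^ 3 ≤ (2.7182818286 : ℝ) ^ 3 :=
          pow_le_pow_left₀ (Real.exp_pos _).le Real.exp_one_lt_d9.le _
      _ ≤ (5 : ℝ) ^ 2 := by norm_num
  have h2 := Real.log_le_log (Real.exp_pos _) h1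
  rw [Real.log_exp, Real.log_pow] at h2
  push_cast at h2
  linarith

namespace Sol

variable {d x y s m : ℕ}

lemma facts (S : Sol d x y s m) :
    Facts d x y s ∧ s ≤ 10000000000000 ∧ 2 * d ^ x ≤ 5 * s := by
  have hd := S.d2
  have hx := S.x2
  have hs := S.s2
  have hm := S.m2
  have hxy := S.xy
  obtain ⟨D, hD⟩ : ∃ D, D = d ^ x := ⟨_, rfl⟩
  obtain ⟨E, hE⟩ : ∃ E, E = d ^ y := ⟨_, rfl⟩
  have hD4 : 4 ≤ D := by
    rw [hD]; exact (Nat.pow_le_pow_left hd 2).trans (Nat.pow_le_pow_right (by omega) hx)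
  have hED : E = D * d ^ (y - x) := by rw [hE, hD, ← pow_add]; congr 1; omega
  have hdk : 2 ≤ d ^ (y - x) := hd.trans (Nat.le_self_pow (by omega) d)
  have hE2 : 2 * D ≤ E := by rw [hED, mul_comm]; exact Nat.mul_le_mul_left _ hdk
  have heq := S.eq
  rw [← hD, ← hE] at heq
  -- `m < s`
  have hms : m < s := by
    by_contra hcon
    have h1 : (D + 1) ^ s ≤ (E - 1) ^ s := Nat.pow_le_pow_left (by omega) s
    have h2 : (E - 1) ^ s ≤ (E - 1) ^ m := Nat.pow_le_pow_right (by omega) (by omega)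
    omega
  -- `x s < y m`
  have hxs : x * s + 1 ≤ y * m := by
    by_contra hcon
    have h1 : (E - 1) ^ m ≤ D ^ s := by
      calc (E - 1) ^ m ≤ E ^ m := Nat.pow_le_pow_left (by omega) m
        _ = d ^ (y * m) := by rw [hE, ← pow_mul]
        _ ≤ d ^ (x * s) := Nat.pow_le_pow_right (by omega) (by omega)
        _ = D ^ s := by rw [hD, ← pow_mul]
    have h2 : D ^ s + 9 ≤ (D + 1) ^ s := by
      obtain ⟨k, rfl⟩ : ∃ k, s = k + 2 := ⟨s - 2, by omega⟩
      have h3 : D ^ k ≤ (D + 1) ^ k := Nat.pow_le_pow_left (by omega) k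
      have h4 : 1 ≤ D ^ k := Nat.one_le_pow _ _ (by omega)
      calc D ^ (k + 2) + 9 = D ^ k * D ^ 2 + 9 := by rw [pow_add]
        _ ≤ D ^ k * (D ^ 2 + 2 * D + 1) := by nlinarith
        _ ≤ (D + 1) ^ k * (D + 1) ^ 2 := by
            apply Nat.mul_le_mul h3
            nlinarith
        _ = (D + 1) ^ (k + 2) := by rw [pow_add]
    omega
  have hlo1 : d ^ (y - x) ≤ s := Nat.le_of_dvd (by omega) S.div
  have hDr : (4 : ℝ) ≤ D := by exact_mod_cast hD4
  have hD0 : (0 : ℝ) < D := by linarith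
  have hEr : (8 : ℝ) ≤ E := by exact_mod_cast (by omega : 8 ≤ E)
  have hE0 : (0 : ℝ) < E := by linarith
  have hdr : (2 : ℝ) ≤ d := by exact_mod_cast hd
  have hlo2 : (d : ℝ) ^ x * Real.log (3 * d / 4) ≤ s ∨ d ^ y < 4 * s := by
    rcases Nat.lt_or_ge (4 * m) E with h4 | h4
    · left
      have hDd : (d : ℝ) ^ x = D := by rw [hD]; push_cast; ring
      rw [hDd]
      have h1 : (3 / 4 : ℝ) * (E : ℝ) ^ m ≤ ((E : ℝ) - 1) ^ m := by
        have h2 := one_add_mul_le_pow (a := (-1 / (E : ℝ))) (by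
          rw [le_div_iff₀ hE0]; linarith) m
        have h3 : (3 / 4 : ℝ) ≤ 1 + m * (-1 / (E : ℝ)) := by
          have h5 : (4 * m : ℝ) < E := by exact_mod_cast h4
          have h6 : (m : ℝ) * (-1 / (E : ℝ)) = -(m / E) := by ring
          rw [h6]
          have h7 : (m : ℝ) / E ≤ 1 / 4 := by
            rw [div_le_div_iff₀ hE0 (by norm_num)]; linarith
          linarith
        have h5 : ((E : ℝ) - 1) ^ m = (1 + -1 / (E : ℝ)) ^ m * (E : ℝ) ^ m := by
          rw [← mul_pow]; congr 1; field_simp; ring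
        rw [h5]
        exact mul_le_mul_of_nonneg_right (h3.trans h2) (by positivity)
      have h2 : (D : ℝ) ^ s * d ≤ (E : ℝ) ^ m := by
        have h3 : D ^ s * d ≤ E ^ m := by
          calc D ^ s * d = d ^ (x * s + 1) := by rw [hD, ← pow_mul, pow_succ]
            _ ≤ d ^ (y * m) := Nat.pow_le_pow_right (by omega) hxs
            _ = E ^ m := by rw [hE, ← pow_mul]
        exact_mod_cast h3
      have h3 : ((D : ℝ) + 1) ^ s ≤ (D : ℝ) ^ s * Real.exp (s / D) := by
        have h5 : ((D : ℝ) + 1) ^ s = (D : ℝ) ^ s * (1 / (D : ℝ) + 1) ^ s := by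
          rw [← mul_pow]; congr 1; field_simp; ring
        rw [h5]
        apply mul_le_mul_of_nonneg_left _ (by positivity)
        have h6 : Real.exp (s / D) = Real.exp (1 / D) ^ s := by
          rw [← Real.exp_nat_mul]; congr 1; ring
        rw [h6]
        exact pow_le_pow_left₀ (by positivity) (Real.add_one_le_exp _) s
      have h5 : ((E : ℝ) - 1) ^ m ≤ ((D : ℝ) + 1) ^ s := by
        have h6 : (((E - 1 : ℕ) : ℝ)) = (E : ℝ) - 1 := by
          rw [Nat.cast_sub (by omega)]; norm_num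
        rw [← h6]
        have h7 : (E - 1) ^ m ≤ (D + 1) ^ s := by omega
        exact_mod_cast h7
      have h6 : (D : ℝ) ^ s * (3 * d / 4) ≤ (D : ℝ) ^ s * Real.exp (s / D) := by
        calc (D : ℝ) ^ s * (3 * d / 4) = 3 / 4 * ((D : ℝ) ^ s * d) := by ring
          _ ≤ 3 / 4 * (E : ℝ) ^ m := by linarith
          _ ≤ _ := (h1.trans h5).trans h3
      have h7 : 3 * (d : ℝ) / 4 ≤ Real.exp (s / D) := le_of_mul_le_mul_left h6 (by positivity)
      have h8 : Real.log (3 * d / 4) ≤ s / D := by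
        rw [Real.log_le_iff_le_exp (by positivity)]; exact h7
      rw [le_div_iff₀ hD0] at h8
      linarith
    · right
      rw [← hE]; omega
  have h25 : 2 * D ≤ 5 * s := by
    rcases hlo2 with h1 | h1
    · have h2 : (0.4 : ℝ) ≤ Real.log (3 * d / 4) := by
        refine log_three_half.trans (Real.log_le_log (by norm_num) ?_)
        linarith
      have hDd : (d : ℝ) ^ x = D := by rw [hD]; push_cast; ring
      rw [hDd] at h1
      have h3 : (2 * D : ℝ) ≤ 5 * s := by nlinarith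
      exact_mod_cast h3
    · rw [← hE] at h1; omega
  have hsr : (0 : ℝ) < s := by exact_mod_cast (by omega : 0 < s)
  obtain ⟨Y, hY⟩ : ∃ Y : ℕ, Y = ⌈Real.log (E : ℝ)⌉₊ := ⟨_, rfl⟩
  have hYle : Real.log (E : ℝ) ≤ Y := by rw [hY]; exact Nat.le_ceil _
  have hY1 : 1 ≤ Y := by
    rw [hY]; apply Nat.one_le_iff_ne_zero.2
    rw [Ne, Nat.ceil_eq_zero, not_le]
    exact Real.log_pos (by linarith)
  have hPY : Real.log ((D + 1 : ℕ) : ℝ) ≤ Y := by
    refine le_trans ?_ hYle
    apply Real.log_le_log (by positivity)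
    exact_mod_cast (by omega : D + 1 ≤ E)
  have hQY : Real.log ((E - 1 : ℕ) : ℝ) ≤ Y := by
    refine le_trans ?_ hYle
    apply Real.log_le_log (by exact_mod_cast (by omega : 0 < E - 1))
    exact_mod_cast (by omega : E - 1 ≤ E)
  have hlogE : Real.log (E : ℝ) ≤ 2 * Real.log s + 1 := by
    have h1 : (2 * E : ℝ) ≤ 5 * (s : ℝ) ^ 2 := by
      have h2 : 2 * E ≤ 5 * s ^ 2 := by
        rw [hED]
        calc 2 * (D * d ^ (y - x)) = (2 * D) * d ^ (y - x) := by ring
          _ ≤ (5 * s) * s := Nat.mul_le_mul h25 hlo1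
          _ = 5 * s ^ 2 := by ring
      exact_mod_cast h2
    have h2 : (E : ℝ) ≤ Real.exp 1 * (s : ℝ) ^ 2 := by
      have h3 := Real.exp_one_gt_d9
      have h4 : (0 : ℝ) < (s : ℝ) ^ 2 := by positivity
      nlinarith
    have h3 := Real.log_le_log hE0 h2
    rw [Real.log_mul (Real.exp_pos _).ne' (by positivity), Real.log_exp, Real.log_pow] at h3
    push_cast at h3
    linarith
  have hYn : (Y : ℝ) ≤ 2 * Real.log s + 3 := by
    have h1 : (Y : ℝ) ≤ Real.log (E : ℝ) + 1 := by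
      rw [hY]
      exact (Nat.ceil_lt_add_one (Real.log_natCast_nonneg _)).le
    linarith
  have hb := bound (P := D + 1) (Q := E - 1) (n := s) (k := m) (Y := Y) (by omega) (by omega)
    (by omega) (by omega) heq hms.le hY1 hPY hQY hYn
  have hl32 := log_n_lt (P := D + 1) (Q := E - 1) (n := s) (k := m) (Y := Y) (by omega) (by omega)
    (by omega) (by omega) heq hms.le hY1 hPY hQY hYn
  refine ⟨⟨hd, hxy, ?_, hlo1, hlo2⟩, ?_, ?_⟩
  · rw [← hD, ← hE, ← hY]; exact hb
  · have hY66 : (Y : ℝ) ≤ 66 := by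
      have h1 : (Y : ℝ) < 67 := by linarith
      have h2 : Y < 67 := by exact_mod_cast h1
      exact_mod_cast (by omega : Y ≤ 66)
    have h1 : (1.5 : ℝ) ≤ Real.log ((D + 1 : ℕ) : ℝ) := by
      refine log_five.trans (Real.log_le_log (by norm_num) ?_)
      exact_mod_cast (by omega : 5 ≤ D + 1)
    have h2 : (Y : ℝ) ^ 2 ≤ 66 ^ 2 := pow_le_pow_left₀ (by positivity) hY66 2
    have h3 : (s : ℝ) * 1.5 ≤ 3340800002 * 66 ^ 2 := by
      refine (mul_le_mul_of_nonneg_left h1 hsr.le).trans (hb.trans ?_)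
      linarith
    have h4 : (s : ℝ) ≤ 10000000000000 := by linarith
    exact_mod_cast h4
  · rw [← hD]; exact h25

end Sol

lemma runCert_sound {x y : ℕ} (n d0 c i : ℕ) (h : runCert x y n d0 c = true) (hi : i < n) :
    ∃ q e, cert3 (d0 + 2 * i) x y q e = true := by
  induction n generalizing d0 c i with
  | zero => omega
  | succ n ih =>
    rw [runCert, Bool.and_eq_true] at h
    rcases Nat.eq_zero_or_pos i with rfl | hi0
    · exact ⟨_, _, h.1⟩
    · obtain ⟨j, rfl⟩ : ∃ j, i = j + 1 := ⟨i - 1, by omega⟩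
      obtain ⟨q, e, hqe⟩ := ih (d0 + 2) (c / 1048576) j h.2 (by omega)
      refine ⟨q, e, ?_⟩
      rw [show d0 + 2 * (j + 1) = d0 + 2 + 2 * j by ring]
      exact hqe

lemma runBlk_sound {d x y s : ℕ} (F : Facts d x y s) (hs : s ≤ 10000000000000)
    (h25 : 2 * d ^ x ≤ 5 * s) (hd : d % 2 = 0) (l : List ℕ) (d0 : ℕ) (hd0 : 2 ≤ d0)
    (hd02 : d0 % 2 = 0) (h : runBlk x y l d0 = true) (hle : d0 ≤ d) : False := by
  induction l generalizing d0 with
  | nil =>
    rw [runBlk, Bool.or_eq_true, Nat.ble_eq, Nat.ble_eq] at h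
    have h1 := F.lo1
    have h2 := Nat.pow_le_pow_left hle (y - x)
    have h3 := Nat.pow_le_pow_left hle x
    omega
  | cons D l ih =>
    rw [runBlk, Bool.and_eq_true, Bool.and_eq_true] at h
    obtain ⟨⟨h1, h2⟩, h3⟩ := h
    have hD : D % 2 = 0 := Nat.eq_of_beq_eq_true h1
    rcases Nat.lt_or_ge D d with h4 | h4
    · exact ih (D + 2) (by omega) (by omega) h3 (by omega)
    · exact blk_sound F hd0 hle h4 h2

lemma okPair_sound {d x y s m : ℕ} (S : Sol d x y s m) (E : ℕ × ℕ × List ℕ)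
    (h : okPair x y E = true) : False := by
  obtain ⟨F, hs, h25⟩ := S.facts
  have hs1 : 1 ≤ s := by have := S.s2; omega
  rw [okPair, Bool.or_eq_true] at h
  rcases h with h | h
  · exact S.gcd_odd (Nat.eq_of_beq_eq_true h)
  · cases hc : ((y % 3).beq 0 && !((x % 3).beq 0)) with
    | true =>
      rw [hc, cond_true] at h
      rw [Bool.and_eq_true, Bool.not_eq_true'] at hc
      have h1 : y % 3 = 0 := Nat.eq_of_beq_eq_true hc.1
      have h2 : x % 3 ≠ 0 := by
        intro h3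
        rw [h3, Nat.beq_refl] at hc
        exact absurd hc.2 (by simp)
      have hd := S.three h1 h2
      cases hE : E.1.beq 0 with
      | true =>
        rw [hE, cond_true] at h
        exact blk_sound F le_rfl (by omega) (by omega) h
      | false =>
        rw [hE, cond_false] at h
        have hdiv := S.div
        have heq := S.eq
        rw [hd] at hdiv heq
        exact cert3_sound hs1 S.modd hdiv heq h
    | false =>
      rw [hc, cond_false, Bool.and_eq_true] at h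
      have hd2 := S.d2
      have hde := S.deven
      rcases Nat.lt_or_ge d (2 * E.1 + 2) with h1 | h1
      · obtain ⟨q, e, hqe⟩ := runCert_sound E.1 2 E.2.1 ((d - 2) / 2) h.1 (by omega)
        rw [show 2 + 2 * ((d - 2) / 2) = d by omega] at hqe
        exact cert3_sound hs1 S.modd S.div S.eq hqe
      · exact runBlk_sound F hs h25 hde _ _ (by omega) (by omega) h.2 h1

lemma okRow_get {x : ℕ} (y0 : ℕ) (l : List (ℕ × ℕ × List ℕ)) (h : okRow x y0 l = true) (i : ℕ)
    (hi : i < l.length) : ∃ E, okPair x (y0 + i) E = true := by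
  induction l generalizing y0 i with
  | nil => simp at hi
  | cons E l ih =>
    rw [okRow, Bool.and_eq_true] at h
    rcases Nat.eq_zero_or_pos i with rfl | hi0
    · exact ⟨E, h.1⟩
    · obtain ⟨j, rfl⟩ : ∃ j, i = j + 1 := ⟨i - 1, by omega⟩
      rw [List.length_cons] at hi
      obtain ⟨E', hE'⟩ := ih (y0 + 1) h.2 j (by omega)
      refine ⟨E', ?_⟩
      rw [show y0 + (j + 1) = y0 + 1 + j by ring]
      exact hE'

lemma okAll_get (x0 : ℕ) (l : List (List (ℕ × ℕ × List ℕ))) (h : okAll x0 l = true) (i : ℕ)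
    (hi : i < l.length) : ∃ R : List (ℕ × ℕ × List ℕ), R.length = 43 ∧
      okRow (x0 + i) (x0 + i + 1) R = true := by
  induction l generalizing x0 i with
  | nil => simp at hi
  | cons R l ih =>
    rw [okAll, Bool.and_eq_true, Bool.and_eq_true] at h
    rcases Nat.eq_zero_or_pos i with rfl | hi0
    · exact ⟨R, Nat.eq_of_beq_eq_true h.1.1, h.1.2⟩
    · obtain ⟨j, rfl⟩ : ∃ j, i = j + 1 := ⟨i - 1, by omega⟩
      rw [List.length_cons] at hi
      obtain ⟨R', hR'⟩ := ih (x0 + 1) h.2 j (by omega)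
      refine ⟨R', ?_⟩
      rw [show x0 + (j + 1) = x0 + 1 + j by ring]
      exact hR'

theorem e3 {d x y s m : ℕ} (hd : 2 ≤ d) (hx : 2 ≤ x) (hy : 2 ≤ y) (hs : 2 ≤ s) (hm : 2 ≤ m)
    (hxy : x ≠ y) : (d ^ x + 1) ^ s ≠ (d ^ y - 1) ^ m + 2 := by
  intro h
  have S := sol_of hd hx hy hs hm hxy h
  obtain ⟨F, hs13, h25⟩ := S.facts
  have hlt := S.xy
  have hx44 : x ≤ 44 := by
    by_contra hcon
    have h1 : 2 ^ 45 ≤ d ^ x := (Nat.pow_le_pow_left hd 45).trans
      (Nat.pow_le_pow_right (by omega) (by omega))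
    norm_num at h1
    omega
  have hy43 : y - x ≤ 43 := by
    by_contra hcon
    have h1 : 2 ^ 44 ≤ d ^ (y - x) := (Nat.pow_le_pow_left hd 44).trans
      (Nat.pow_le_pow_right (by omega) (by omega))
    have h2 := F.lo1
    norm_num at h1
    omega
  have hdata := okAll_data
  rw [Bool.and_eq_true] at hdata
  have hlen : data.length = 43 := Nat.eq_of_beq_eq_true hdata.1
  obtain ⟨R, hR, hrow⟩ := okAll_get 2 data hdata.2 (x - 2) (by omega)
  obtain ⟨E, hE⟩ := okRow_get _ R hrow (y - x - 1) (by omega)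
  rw [show 2 + (x - 2) = x by omega, show x + 1 + (y - x - 1) = y by omega] at hE
  exact okPair_sound S E hE

end Pool.Agent.Q271.TP
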