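import Mathlib

/-!
# Fast modular powers for the kernel
-/

set_option autoImplicit false

namespace Pool.Agent.Q271.TP

/-- `mpowAux m fuel b e acc = acc * b ^ e % m` (when `e < 2 ^ fuel`) -/
def mpowAux (m : ℕ) : ℕ → ℕ → ℕ → ℕ → ℕ
  | 0, _, _, acc => acc % m
  | f + 1, b, e, acc =>
    bif e.beq 0 then acc % m
    else mpowAux m f (b * b % m) (e / 2) (bif (e % 2).beq 1 then acc * b % m else acc)

/-- `b ^ e % m` for `e < 2 ^ 64` -/
def mpow (m b e : ℕ) : ℕ := mpowAux m 64 (b % m) e 1

lemma mpowAux_eq (m f b e acc : ℕ) (h : e < 2 ^ f) :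
    mpowAux m f b e acc ≡ acc * b ^ e [MOD m] := by
  induction f generalizing b e acc with
  | zero =>
    have : e = 0 := by simpa using h
    subst this
    simp [mpowAux, Nat.mod_modEq]
  | succ f ih =>
    rw [mpowAux]
    rcases Nat.eq_zero_or_pos e with rfl | he
    · simp [Nat.mod_modEq]
    · have h0 : e.beq 0 = false := by
        rw [Bool.eq_false_iff]
        intro hh
        have := Nat.eq_of_beq_eq_true hh
        omega
      rw [h0, cond_false]
      have h2 : e / 2 < 2 ^ f := by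
        rw [pow_succ] at h; omega
      refine (ih _ _ _ h2).trans ?_
      have hbb : (b * b % m) ^ (e / 2) ≡ b ^ (2 * (e / 2)) [MOD m] := by
        rw [pow_mul, sq]
        exact (Nat.mod_modEq _ _).pow _
      rcases Nat.mod_two_eq_zero_or_one e with h1 | h1
      · have : (e % 2).beq 1 = false := by rw [h1]; rfl
        rw [this, cond_false]
        have he2 : 2 * (e / 2) = e := by omega
        rw [he2] at hbb
        exact hbb.mul_left _
      · have : (e % 2).beq 1 = true := by rw [h1]; rfl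
        rw [this, cond_true]
        have he2 : 1 + 2 * (e / 2) = e := by omega
        calc acc * b % m * (b * b % m) ^ (e / 2) ≡ acc * b * b ^ (2 * (e / 2)) [MOD m] :=
              (Nat.mod_modEq _ _).mul hbb
          _ = acc * b ^ e := by rw [mul_assoc, ← pow_succ', add_comm, he2]

lemma mpow_cast (m b e : ℕ) (h : e < 2 ^ 64) : ((mpow m b e : ℕ) : ZMod m) = (b : ZMod m) ^ e := by
  have h1 := mpowAux_eq m 64 (b % m) e 1 h
  have h2 : mpow m b e ≡ b ^ e [MOD m] := by
    unfold mpow
    refine h1.trans ?_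
    rw [one_mul]
    exact (Nat.mod_modEq _ _).pow _
  have := (ZMod.natCast_eq_natCast_iff _ _ _).2 h2
  rw [this, Nat.cast_pow]

lemma mpow_lt (q b e : ℕ) (hq : 0 < q) : mpow q b e < q := by
  have : ∀ f b e acc, mpowAux q f b e acc < q := by
    intro f
    induction f with
    | zero => intro b e acc; exact Nat.mod_lt _ hq
    | succ f ih =>
      intro b e acc
      rw [mpowAux]
      cases e.beq 0
      · exact ih _ _ _
      · exact Nat.mod_lt _ hq
  exact this _ _ _ _

lemma mpow_eq_of_cast {q b e c : ℕ} (hq : 0 < q) (hc : c < q)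
    (h : ((mpow q b e : ℕ) : ZMod q) = (c : ZMod q)) : mpow q b e = c := by
  rw [ZMod.natCast_eq_natCast_iff] at h
  unfold Nat.ModEq at h
  rwa [Nat.mod_eq_of_lt (mpow_lt q b e hq), Nat.mod_eq_of_lt hc] at h

/-- auxiliary for `lg` -/
def lgAux (N : ℕ) : List ℕ → ℕ → ℕ
  | [], r => r
  | b :: l, r => bif Nat.ble (2 ^ (r + b)) N then lgAux N l (r + b) else lgAux N l r

/-- the binary logarithm, for numbers `< 2 ^ 2048` (never used without a check) -/
def lg (N : ℕ) : ℕ := lgAux N [1024, 512, 256, 128, 64, 32, 16, 8, 4, 2, 1] 0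

/-- `r` is the binary logarithm of `N` -/
def okLg (N r : ℕ) : Bool := Nat.ble (2 ^ r) N && Nat.ble (N + 1) (2 ^ (r + 1))

lemma okLg_iff {N r : ℕ} (h : okLg N r = true) : 2 ^ r ≤ N ∧ N < 2 ^ (r + 1) := by
  rw [okLg, Bool.and_eq_true, Nat.ble_eq, Nat.ble_eq] at h
  exact ⟨h.1, h.2⟩

end Pool.Agent.Q271.TP
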