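import Pool.Agent.Q271.TP.E2
import Pool.Agent.Q271.TP.Check3

/-!
# Soundness of the finite check for the third equation
-/

set_option autoImplicit false

namespace Pool.Agent.Q271.TP

lemma cert3_sound {d x y s m q e : ℕ} (hs : 1 ≤ s) (hm : m % 2 = 1)
    (hdiv : d ^ (y - x) ∣ s) (h : (d ^ x + 1) ^ s = (d ^ y - 1) ^ m + 2)
    (hc : cert3 d x y q e = true) : False := by
  obtain ⟨a, ha⟩ : ∃ a, a = d ^ x + 1 := ⟨_, rfl⟩
  obtain ⟨b, hb⟩ : ∃ b, b = d ^ y - 1 := ⟨_, rfl⟩
  obtain ⟨u, hu⟩ : ∃ u, u = Nat.gcd (d ^ (y - x)) (q - 1) := ⟨_, rfl⟩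
  rw [cert3] at hc
  simp only [← ha, ← hb, ← hu] at hc h
  rw [Bool.and_eq_true, Bool.and_eq_true, Bool.and_eq_true, Nat.ble_eq, Nat.ble_eq,
    Nat.ble_eq] at hc
  obtain ⟨⟨⟨hq3, hq64⟩, he64⟩, hc⟩ := hc
  have hus : u ∣ s := (hu ▸ Nat.gcd_dvd_left _ _).trans hdiv
  have hu64 : u < 2 ^ 64 := by
    have : u ≤ q - 1 := hu ▸ Nat.gcd_le_right _ (by omega)
    omega
  obtain ⟨c, hc2⟩ := hus
  have hne : NeZero q := ⟨by omega⟩
  have hg : ((mpow q a u : ℕ) : ZMod q) = (a : ZMod q) ^ u := mpow_cast _ _ _ hu64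
  obtain ⟨g, hgdef⟩ : ∃ g, g = mpow q a u := ⟨_, rfl⟩
  rw [← hgdef] at hg hc
  have hh : (a : ZMod q) ^ s = (b : ZMod q) ^ m + 2 := by
    have := congrArg (Nat.cast : ℕ → ZMod q) h
    push_cast at this ⊢
    exact this
  have h1q : ((1 % q : ℕ) : ZMod q) = 1 := by
    rw [ZMod.natCast_mod]; simp
  have h12 : (1 : ZMod q) ≠ -1 := by
    intro hcon
    have h2 : ((2 : ℕ) : ZMod q) = 0 := by
      push_cast
      linear_combination hcon
    rw [ZMod.natCast_eq_zero_iff] at h2
    have := Nat.le_of_dvd (by norm_num) h2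
    omega
  have hbeq : ∀ a b : ℕ, a.beq b = true → a = b := fun a b h => Nat.eq_of_beq_eq_true h
  have hqm1 : ((q - 1 : ℕ) : ZMod q) = -1 := by
    rw [Nat.cast_sub (by omega)]; simp
  cases hbq : (b % q).beq 0 with
  | true =>
    rw [hbq, cond_true, Bool.and_eq_true, Bool.not_eq_true'] at hc
    have hb0 : (b : ZMod q) = 0 := by
      rw [ZMod.natCast_eq_zero_iff]
      exact Nat.dvd_of_mod_eq_zero (hbeq _ _ hbq)
    rw [hb0, zero_pow (by omega), zero_add, hc2, pow_mul, ← hg] at hh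
    have h1 : ((mpow q g e : ℕ) : ZMod q) = 1 := by rw [hbeq _ _ hc.1, h1q]
    rw [mpow_cast _ _ _ (by omega)] at h1
    have h2 : (2 : ZMod q) ^ e = 1 := by
      rw [← hh, ← pow_mul, mul_comm, pow_mul, h1, one_pow]
    have h3 : mpow q 2 e = 1 % q := by
      have h4 : ((mpow q 2 e : ℕ) : ZMod q) = ((1 % q : ℕ) : ZMod q) := by
        rw [mpow_cast _ _ _ (by omega), h1q]; push_cast; exact h2
      exact mpow_eq_of_cast (by omega) (Nat.mod_lt _ (by omega)) h4
    rw [h3, Nat.beq_refl] at hc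
    exact absurd hc.2 (by simp)
  | false =>
    rw [hbq, cond_false] at hc
    cases haq : (a % q).beq 0 with
    | true =>
      rw [haq, cond_true] at hc
      have ha0 : (a : ZMod q) = 0 := by
        rw [ZMod.natCast_eq_zero_iff]
        exact Nat.dvd_of_mod_eq_zero (hbeq _ _ haq)
      rw [ha0, zero_pow (by omega)] at hh
      have hbm : ((q - 2 : ℕ) : ZMod q) = (b : ZMod q) ^ m := by
        rw [Nat.cast_sub (by omega), ZMod.natCast_self]
        push_cast
        linear_combination hh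
      rw [Bool.or_eq_true, Bool.and_eq_true, Bool.and_eq_true, Bool.not_eq_true',
        Bool.not_eq_true'] at hc
      rcases hc with hc | hc
      · have h1 : ((mpow q b e : ℕ) : ZMod q) = 1 := by rw [hbeq _ _ hc.1, h1q]
        rw [mpow_cast _ _ _ (by omega)] at h1
        have h3 : mpow q (q - 2) e = 1 % q := by
          have h4 : ((mpow q (q - 2) e : ℕ) : ZMod q) = ((1 % q : ℕ) : ZMod q) := by
            rw [mpow_cast _ _ _ (by omega), h1q, hbm, ← pow_mul, mul_comm, pow_mul, h1, one_pow]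
          exact mpow_eq_of_cast (by omega) (Nat.mod_lt _ (by omega)) h4
        rw [h3, Nat.beq_refl] at hc
        exact absurd hc.2 (by simp)
      · have h1 : ((mpow q b e : ℕ) : ZMod q) = -1 := by rw [hbeq _ _ hc.1, hqm1]
        rw [mpow_cast _ _ _ (by omega)] at h1
        have h3 : mpow q (q - 2) e = q - 1 := by
          have h4 : ((mpow q (q - 2) e : ℕ) : ZMod q) = ((q - 1 : ℕ) : ZMod q) := by
            rw [mpow_cast _ _ _ (by omega), hqm1, hbm, ← pow_mul, mul_comm, pow_mul, h1,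
              Odd.neg_one_pow (Nat.odd_iff.2 hm)]
          exact mpow_eq_of_cast (by omega) (by omega) h4
        rw [h3, Nat.beq_refl] at hc
        exact absurd hc.2 (by simp)
    | false =>
      rw [haq, cond_false, Bool.and_eq_true] at hc
      have hg1 : (g : ZMod q) = 1 := by rw [hbeq _ _ hc.1, h1q]
      rw [hc2, pow_mul, ← hg, hg1, one_pow] at hh
      have hbt : (b : ZMod q) ^ m = -1 := by linear_combination -hh
      have h1 : ((mpow q (q - b % q) e : ℕ) : ZMod q) = -1 := by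
        rw [hbeq _ _ hc.2, hqm1]
      rw [mpow_cast _ _ _ (by omega), Nat.cast_sub (Nat.mod_lt _ (by omega)).le,
        ZMod.natCast_mod, ZMod.natCast_self, zero_sub] at h1
      have h2 : (-(b : ZMod q)) ^ m = 1 := by
        rw [Odd.neg_pow (Nat.odd_iff.2 hm), hbt, neg_neg]
      apply h12
      calc (1 : ZMod q) = ((-(b : ZMod q)) ^ m) ^ e := by rw [h2, one_pow]
        _ = ((-(b : ZMod q)) ^ e) ^ m := by rw [← pow_mul, mul_comm, pow_mul]
        _ = -1 := by rw [h1, Odd.neg_one_pow (Nat.odd_iff.2 hm)]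

/-- the analytic facts about a solution -/
structure Facts (d x y s : ℕ) : Prop where
  d2 : 2 ≤ d
  xy : x < y
  up : (s : ℝ) * Real.log ((d ^ x + 1 : ℕ) : ℝ) ≤
    3340800002 * ((⌈Real.log ((d ^ y : ℕ) : ℝ)⌉₊ : ℕ) : ℝ) ^ 2
  lo1 : d ^ (y - x) ≤ s
  lo2 : (d : ℝ) ^ x * Real.log (3 * d / 4) ≤ s ∨ d ^ y < 4 * s

lemma blk_sound {d x y s d1 d2 : ℕ} (F : Facts d x y s) (hd1 : 2 ≤ d1) (h1 : d1 ≤ d) (h2 : d ≤ d2)
    (hc : blk x y d1 d2 = true) : False := by
  rw [blk] at hc
  generalize lg (d2 ^ y) = r at hc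
  generalize lg (d1 ^ x) = r' at hc
  generalize lg (3 * d1 / 4) = r'' at hc
  rw [blkAux] at hc
  obtain ⟨S, hS⟩ : ∃ S, S = (10000 * 3340800002 * ((r + 1) * 6932 / 10000 + 1) ^ 2) / (6931 * r') :=
    ⟨_, rfl⟩
  simp only [← hS] at hc
  rw [Bool.and_eq_true, Bool.and_eq_true, Bool.and_eq_true, Bool.and_eq_true, Bool.or_eq_true,
    Bool.and_eq_true, Bool.or_eq_true, Nat.ble_eq, Nat.ble_eq, Nat.ble_eq, Nat.ble_eq,
    Nat.ble_eq, Nat.ble_eq, Nat.ble_eq, Nat.ble_eq] at hc
  obtain ⟨⟨⟨⟨c1, c2⟩, c3⟩, c4⟩, c5⟩ := hc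
  have hdy : 1 ≤ d ^ y := Nat.one_le_pow _ _ (by omega)
  have e1 : ⌈Real.log ((d ^ y : ℕ) : ℝ)⌉₊ ≤ (r + 1) * 6932 / 10000 + 1 := by
    apply ceil_log_le _ hdy
    have := Nat.pow_le_pow_left h2 y
    omega
  have e2 : (r' : ℝ) * 6931 ≤ 10000 * Real.log ((d ^ x + 1 : ℕ) : ℝ) := by
    apply le_log
    have := Nat.pow_le_pow_left h1 x
    omega
  have e3 : (s : ℝ) * (r' * 6931) ≤
      10000 * 3340800002 * (((r + 1) * 6932 / 10000 + 1 : ℕ) : ℝ) ^ 2 := by
    obtain ⟨W, hW⟩ : ∃ W, W = (r + 1) * 6932 / 10000 + 1 := ⟨_, rfl⟩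
    rw [← hW] at e1 ⊢
    have h9 : ((⌈Real.log ((d ^ y : ℕ) : ℝ)⌉₊ : ℕ) : ℝ) ^ 2 ≤ (W : ℝ) ^ 2 :=
      pow_le_pow_left₀ (by positivity) (by exact_mod_cast e1) 2
    have h10 := F.up
    calc (s : ℝ) * (r' * 6931) ≤ s * (10000 * Real.log ((d ^ x + 1 : ℕ) : ℝ)) :=
          mul_le_mul_of_nonneg_left e2 (Nat.cast_nonneg s)
      _ = 10000 * (s * Real.log ((d ^ x + 1 : ℕ) : ℝ)) := by ring
      _ ≤ 10000 * (3340800002 * (W : ℝ) ^ 2) := by linarith
      _ = _ := by ring
  have e4 : s ≤ S := by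
    rw [hS, Nat.le_div_iff_mul_le (by omega)]
    have : s * (r' * 6931) ≤ 10000 * 3340800002 * ((r + 1) * 6932 / 10000 + 1) ^ 2 := by
      exact_mod_cast e3
    calc s * (6931 * r') = s * (r' * 6931) := by ring
      _ ≤ _ := this
  rcases c5 with c5 | ⟨c5, c6⟩
  · have := Nat.pow_le_pow_left h1 (y - x)
    have := F.lo1
    omega
  · rcases F.lo2 with h3 | h3
    · have hlog : Real.log (3 * d1 / 4) ≤ Real.log (3 * d / 4) := by
        apply Real.log_le_log
        · have : (0 : ℝ) < d1 := by exact_mod_cast (by omega : 0 < d1)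
          positivity
        · have : (d1 : ℝ) ≤ d := by exact_mod_cast h1
          linarith
      have hpow : (d1 : ℝ) ^ x ≤ (d : ℝ) ^ x :=
        pow_le_pow_left₀ (by positivity) (by exact_mod_cast h1) x
      have hd1r : (2 : ℝ) ≤ d1 := by exact_mod_cast hd1
      have hl0 : 4000 ≤ 10000 * Real.log (3 * d1 / 4) := by
        have h4 : Real.log (3 / 2) ≤ Real.log (3 * d1 / 4) := by
          apply Real.log_le_log (by norm_num)
          linarith
        have h5 : (0.4 : ℝ) ≤ Real.log (3 / 2) := by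
          rw [Real.le_log_iff_exp_le (by norm_num)]
          have h6 : Real.exp 0.4 ≤ 1.5 := by
            have h7 : Real.exp 0.4 = (Real.exp (-0.4))⁻¹ := by rw [Real.exp_neg, inv_inv]
            have h8 : (2 / 3 : ℝ) ≤ Real.exp (-0.4) := by
              have := Real.quadratic_le_exp_of_nonneg (show (0 : ℝ) ≤ 0.4 by norm_num)
              have h9 : Real.exp (-0.4) = Real.exp (-0.1) ^ 4 := by
                rw [← Real.exp_nat_mul]; norm_num
              rw [h9]
              have h10 : (0.9 : ℝ) ≤ Real.exp (-0.1) := by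
                have := Real.add_one_le_exp (-0.1 : ℝ)
                linarith
              have h11 : (0.904 : ℝ) ≤ Real.exp (-0.1) := by
                have h12 : Real.exp (-0.1) = Real.exp (-0.01) ^ 10 := by
                  rw [← Real.exp_nat_mul]; norm_num
                rw [h12]
                have h13 : (0.99 : ℝ) ≤ Real.exp (-0.01) := by
                  have := Real.add_one_le_exp (-0.01 : ℝ)
                  linarith
                calc (0.904 : ℝ) ≤ 0.99 ^ 10 := by norm_num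
                  _ ≤ _ := pow_le_pow_left₀ (by norm_num) h13 _
              calc (2 / 3 : ℝ) ≤ 0.904 ^ 4 := by norm_num
                _ ≤ _ := pow_le_pow_left₀ (by norm_num) h11 _
            rw [h7]
            calc (Real.exp (-0.4))⁻¹ ≤ (2 / 3 : ℝ)⁻¹ := inv_anti₀ (by norm_num) h8
              _ = 1.5 := by norm_num
          linarith
        linarith
      have hl1 : (r'' : ℝ) * 6931 ≤ 10000 * Real.log (3 * d1 / 4) := by
        have h4 := le_log c4
        have h5 : Real.log ((3 * d1 / 4 : ℕ) : ℝ) ≤ Real.log (3 * d1 / 4) := by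
          apply Real.log_le_log
          · have : 0 < 3 * d1 / 4 := lt_of_lt_of_le (by positivity) c4
            exact_mod_cast this
          · have := Nat.cast_div_le (α := ℝ) (m := 3 * d1) (n := 4)
            push_cast at this
            exact this
        linarith
      have hsS : (s : ℝ) ≤ S := by exact_mod_cast e4
      have hlogpos : 0 ≤ Real.log (3 * d1 / 4) := by linarith
      have h6 : (d1 : ℝ) ^ x * Real.log (3 * d1 / 4) ≤ S :=
        (mul_le_mul hpow hlog hlogpos (by positivity)).trans (h3.trans hsS)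
      have hd1x : (0 : ℝ) ≤ (d1 : ℝ) ^ x := by positivity
      rcases c5 with c5 | c5
      · have c7 : (10000 * S + 1 : ℝ) ≤ (d1 : ℝ) ^ x * 4000 := by exact_mod_cast c5
        have h7 := mul_le_mul_of_nonneg_left hl0 hd1x
        linarith
      · have c7 : (10000 * S + 1 : ℝ) ≤ (d1 : ℝ) ^ x * (6931 * r'') := by exact_mod_cast c5
        have h7 := mul_le_mul_of_nonneg_left hl1 hd1x
        linarith
    · have := Nat.pow_le_pow_left h1 y
      omega

end Pool.Agent.Q271.TP
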